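import Pool.Agent.H932Z.FM.MV
import Pool.Agent.H469R2.NK.KL
import Pool.Agent.Helper240.ZU.A1

set_option autoImplicit false

/-! Approximation of zeta on the critical line by a sum of length `T`. -/

namespace Pool.Agent.H932Z.FM

open Finset MeasureTheory

noncomputable section

/-- zeta on the critical line -/
def zt (t : ℝ) : ℂ := riemannZeta (1 / 2 + (t : ℂ) * Complex.I)

/-- the partial sum -/
def DD (N : ℕ) (t : ℝ) : ℂ := ∑ n ∈ Icc 1 N, nz n t

lemma DD_cont (N : ℕ) : Continuous (DD N) := by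
  unfold DD
  exact continuous_finsetSum _ fun n _ => nz_cont n

lemma log_diff_bounds {n : ℝ} (hn : 0 < n) :
    1 / (n + 1) ≤ Real.log (n + 1) - Real.log n ∧ Real.log (n + 1) - Real.log n ≤ 1 / n := by
  constructor
  · have := Real.log_le_sub_one_of_pos (div_pos hn (by linarith : 0 < n + 1))
    rw [Real.log_div hn.ne' (by linarith)] at this
    have e : n / (n + 1) - 1 = -(1 / (n + 1)) := by field_simp; ring
    linarith
  · have := Real.log_le_sub_one_of_pos (div_pos (by linarith : 0 < n + 1) hn)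
    rw [Real.log_div (by linarith) hn.ne'] at this
    have e : (n + 1) / n - 1 = 1 / n := by field_simp; ring
    linarith

/-- Kusmin-Landau for `n^(-it)` -/
lemma kl (N K : ℕ) (hN : 1 ≤ N) (t : ℝ) (ht : 0 < t) (htN : t ≤ 3 * N) :
    ‖∑ j ∈ range K, ex (-(t * Real.log ((N + 1 + j : ℕ) : ℝ)))‖ ≤ 13 * (N + 1 + K) / t := by
  have hpi := Real.pi_gt_three
  have hpi2 := Real.pi_lt_d2
  have hN1 : (1 : ℝ) ≤ N := by exact_mod_cast hN
  have hK0 : (0 : ℝ) ≤ K := Nat.cast_nonneg K
  set x : ℕ → ℝ := fun j => t / (2 * Real.pi) * Real.log ((N + 1 + j : ℕ) : ℝ) with hx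
  set θ : ℝ := t / (2 * Real.pi) / (N + 1 + K) with hθ
  have hc : 0 < t / (2 * Real.pi) := by positivity
  have hθ0 : 0 < θ := by positivity
  have hd : ∀ j : ℕ, x (j + 1) - x j = t / (2 * Real.pi) *
      (Real.log (((N + 1 + j : ℕ) : ℝ) + 1) - Real.log ((N + 1 + j : ℕ) : ℝ)) := by
    intro j
    simp only [hx]
    rw [show N + 1 + (j + 1) = N + 1 + j + 1 by ring]
    push_cast
    ring
  have hpos : ∀ j : ℕ, (0 : ℝ) < ((N + 1 + j : ℕ) : ℝ) := fun j => by positivity
  have hhalf : t / (2 * Real.pi) / N ≤ 1 / 2 := by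
    rw [div_div, div_le_div_iff₀ (by positivity) (by norm_num)]
    nlinarith
  have h := Pool.Agent.H469R2.NK.kusmin_landau_anti x K hθ0 (by
      intro j hj
      rw [hd, hθ, div_eq_mul_one_div (t / (2 * Real.pi))]
      refine mul_le_mul_of_nonneg_left (le_trans ?_ (log_diff_bounds (hpos j)).1) hc.le
      have : (j : ℝ) + 1 ≤ K := by exact_mod_cast hj
      apply one_div_le_one_div_of_le (by positivity)
      push_cast
      linarith) (by
      intro j hj
      rw [hd]
      have h1 : t / (2 * Real.pi) * (Real.log (((N + 1 + j : ℕ) : ℝ) + 1) -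
          Real.log ((N + 1 + j : ℕ) : ℝ)) ≤ t / (2 * Real.pi) / N := by
        rw [div_eq_mul_one_div (t / (2 * Real.pi))]
        refine mul_le_mul_of_nonneg_left ((log_diff_bounds (hpos j)).2.trans ?_) hc.le
        apply one_div_le_one_div_of_le (by positivity)
        push_cast
        have : (0 : ℝ) ≤ j := Nat.cast_nonneg j
        linarith
      have h2 : θ ≤ t / (2 * Real.pi) / N := by
        rw [hθ]
        gcongr
        linarith
      linarith) (by
      intro j hj
      rw [show j + 2 = j + 1 + 1 by ring, hd, hd]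
      refine mul_le_mul_of_nonneg_left ?_ hc.le
      refine (log_diff_bounds (hpos (j + 1))).2.trans (le_trans (le_of_eq ?_)
        (log_diff_bounds (hpos j)).1)
      push_cast
      ring)
  rw [← Pool.Agent.H469R2.NK.norm_sum_neg] at h
  have e : ∀ j, Pool.Agent.H469R2.NK.e (-(x j)) = ex (-(t * Real.log ((N + 1 + j : ℕ) : ℝ))) := by
    intro j
    unfold Pool.Agent.H469R2.NK.e ex
    congr 3
    simp only [hx]
    field_simp
  simp only [e] at h
  refine h.trans ?_
  rw [hθ, div_div, div_div_eq_mul_div]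
  gcongr ?_ / t
  nlinarith

lemma rr_diff {n : ℕ} (hn : 1 ≤ n) :
    0 ≤ rr n - rr (n + 1) ∧ (rr n - rr (n + 1)) * n ≤ Real.sqrt ((n + 1 : ℕ) : ℝ) - Real.sqrt n := by
  have hn0 : (0 : ℝ) < n := by exact_mod_cast hn
  set a := Real.sqrt n with ha
  set b := Real.sqrt ((n + 1 : ℕ) : ℝ) with hb
  have ha0 : 0 < a := Real.sqrt_pos.2 hn0
  have hab : a ≤ b := Real.sqrt_le_sqrt (by push_cast; linarith)
  have hb0 : 0 < b := by linarith
  have haa : a * a = n := Real.mul_self_sqrt hn0.le
  unfold rr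
  rw [← ha, ← hb]
  have e : a⁻¹ - b⁻¹ = (b - a) / (a * b) := by field_simp
  rw [e]
  constructor
  · have : 0 ≤ b - a := by linarith
    positivity
  · rw [← haa, div_mul_eq_mul_div, div_le_iff₀ (by positivity)]
    have : 0 ≤ b - a := by linarith
    gcongr

/-- the middle range -/
lemma mid (N K : ℕ) (hN : 1 ≤ N) (t : ℝ) (ht : 0 < t) (htN : t ≤ 3 * N) :
    ‖∑ j ∈ range K, nz (N + 1 + j) t‖ ≤ 52 * Real.sqrt ((N + K : ℕ) : ℝ) / t := by
  set A : ℕ → ℂ := fun K => ∑ j ∈ range K, ex (-(t * Real.log ((N + 1 + j : ℕ) : ℝ))) with hA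
  have hAb : ∀ K : ℕ, ‖A K‖ ≤ 26 / t * ((N + K : ℕ) : ℝ) := by
    intro K
    refine (kl N K hN t ht htN).trans ?_
    have hN1 : (1 : ℝ) ≤ N := by exact_mod_cast hN
    have hK0 : (0 : ℝ) ≤ K := Nat.cast_nonneg K
    rw [div_mul_eq_mul_div]
    gcongr ?_ / t
    push_cast
    linarith
  have key : ∀ K : ℕ, ‖∑ j ∈ range K, nz (N + 1 + j) t - (rr (N + K) : ℂ) * A K‖ ≤
      26 / t * Real.sqrt ((N + K : ℕ) : ℝ) := by
    intro K
    induction K with
    | zero =>
      simp only [hA, range_zero, sum_empty, mul_zero, sub_zero, norm_zero]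
      positivity
    | succ K ih =>
      have e : ∑ j ∈ range (K + 1), nz (N + 1 + j) t - (rr (N + (K + 1)) : ℂ) * A (K + 1) =
          (∑ j ∈ range K, nz (N + 1 + j) t - (rr (N + K) : ℂ) * A K) +
            ((rr (N + K) - rr (N + K + 1) : ℝ) : ℂ) * A K := by
        simp only [hA, sum_range_succ]
        unfold nz
        rw [show N + 1 + K = N + K + 1 by ring, show N + (K + 1) = N + K + 1 by ring]
        push_cast
        ring
      rw [e]
      obtain ⟨h1, h2⟩ := rr_diff (n := N + K) (by omega)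
      refine (norm_add_le _ _).trans ?_
      rw [norm_mul, Complex.norm_real, Real.norm_of_nonneg h1]
      have h3 : (rr (N + K) - rr (N + K + 1)) * ‖A K‖ ≤ 26 / t *
          (Real.sqrt ((N + K + 1 : ℕ) : ℝ) - Real.sqrt ((N + K : ℕ) : ℝ)) := by
        calc _ ≤ (rr (N + K) - rr (N + K + 1)) * (26 / t * ((N + K : ℕ) : ℝ)) := by
              gcongr
              exact hAb K
          _ = 26 / t * ((rr (N + K) - rr (N + K + 1)) * ((N + K : ℕ) : ℝ)) := by ring
          _ ≤ _ := by gcongr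
      rw [show N + (K + 1) = N + K + 1 by ring]
      linarith
  have h1 := key K
  have h2 : ‖(rr (N + K) : ℂ) * A K‖ ≤ 26 / t * Real.sqrt ((N + K : ℕ) : ℝ) := by
    rw [norm_mul, Complex.norm_real, Real.norm_of_nonneg (rr_nonneg _)]
    have hp : (0 : ℝ) < ((N + K : ℕ) : ℝ) := by
      have : 0 < N + K := by omega
      exact_mod_cast this
    have h3 : rr (N + K) * ((N + K : ℕ) : ℝ) = Real.sqrt ((N + K : ℕ) : ℝ) := by
      unfold rr
      have h4 := Real.mul_self_sqrt hp.le
      have h5 := Real.sqrt_pos.2 hp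
      field_simp
      nlinarith
    calc _ ≤ rr (N + K) * (26 / t * ((N + K : ℕ) : ℝ)) := by
          gcongr
          · exact rr_nonneg _
          · exact hAb K
      _ = 26 / t * (rr (N + K) * ((N + K : ℕ) : ℝ)) := by ring
      _ = _ := by rw [h3]
  have h3 := norm_add_le (∑ j ∈ range K, nz (N + 1 + j) t - (rr (N + K) : ℂ) * A K)
    ((rr (N + K) : ℂ) * A K)
  rw [sub_add_cancel] at h3
  have e : 52 * Real.sqrt ((N + K : ℕ) : ℝ) / t = 26 / t * Real.sqrt ((N + K : ℕ) : ℝ) +
      26 / t * Real.sqrt ((N + K : ℕ) : ℝ) := by ring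
  rw [e]
  linarith

lemma DD_add (N K : ℕ) (t : ℝ) : DD (N + K) t = DD N t + ∑ j ∈ range K, nz (N + 1 + j) t := by
  induction K with
  | zero => simp
  | succ K ih =>
    rw [sum_range_succ, ← add_assoc (DD N t), ← ih]
    unfold DD
    rw [← add_assoc, sum_Icc_succ_top (by omega), show N + 1 + K = N + K + 1 by ring]

/-- Euler-Maclaurin -/
lemma em (M : ℕ) (hM : 1 ≤ M) (t : ℝ) (ht : 0 < t) :
    ‖zt t - DD M t‖ ≤ Real.sqrt M / t + 2 * (1 + t) / Real.sqrt M := by
  set s : ℂ := 1 / 2 + (t : ℂ) * Complex.I with hs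
  have hre : s.re = 1 / 2 := by simp [hs]
  have him : s.im = t := by simp [hs]
  have hs1 : s ≠ 1 := by
    intro h
    rw [h] at hre
    norm_num at hre
  have hM0 : (0 : ℝ) < M := by exact_mod_cast hM
  have h := ZU.J_a1.zeta_formula M hM s (by rw [hre]; norm_num) hs1
  have hD : ZU.DN M s = DD M t := by
    unfold ZU.DN DD
    exact sum_congr rfl fun n hn => nz_eq (mem_Icc.1 hn).1 t
  unfold zt
  rw [← hs, h, hD, add_sub_assoc, add_sub_cancel_left]
  refine (norm_sub_le _ _).trans (add_le_add ?_ ?_)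
  · rw [norm_div, Complex.norm_natCast_cpow_of_pos (by omega)]
    have e : (1 - s).re = 1 / 2 := by
      rw [Complex.sub_re, hre]
      norm_num
    rw [e, ← Real.sqrt_eq_rpow]
    have h1 : t ≤ ‖s - 1‖ := by
      have := Complex.abs_im_le_norm (s - 1)
      rw [Complex.sub_im, him, Complex.one_im, sub_zero, abs_of_pos ht] at this
      exact this
    gcongr
  · rw [norm_mul]
    have h1 : ‖s‖ ≤ 1 + t := by
      have := Complex.norm_le_abs_re_add_abs_im s
      rw [hre, him, abs_of_pos ht, abs_of_pos (by norm_num : (0 : ℝ) < 1 / 2)] at this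
      linarith
    have h2 : ‖∫ u in Set.Ioi (M : ℝ), ((Int.fract u : ℝ) : ℂ) * (u : ℂ) ^ (-s - 1)‖ ≤
        2 / Real.sqrt M := by
      have h3 : ∫ u in Set.Ioi (M : ℝ), u ^ (-(3 / 2) : ℝ) = 2 / Real.sqrt M := by
        rw [integral_Ioi_rpow_of_lt (by norm_num) hM0, Real.sqrt_eq_rpow,
          show (-(3 / 2) : ℝ) + 1 = -(1 / 2) by norm_num, Real.rpow_neg hM0.le]
        field_simp
      rw [← h3]
      refine norm_integral_le_of_norm_le (integrableOn_Ioi_rpow_of_lt (by norm_num) hM0) ?_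
      refine (ae_restrict_mem measurableSet_Ioi).mono fun u hu => ?_
      have hu0 : 0 < u := hM0.trans hu
      rw [norm_mul, Complex.norm_real, Real.norm_of_nonneg (Int.fract_nonneg u),
        Complex.norm_cpow_eq_rpow_re_of_pos hu0]
      have h4 : (-s - 1).re = -(3 / 2) := by
        rw [Complex.sub_re, Complex.neg_re, hre]
        norm_num
      rw [h4]
      have h5 : 0 ≤ u ^ (-(3 / 2) : ℝ) := by positivity
      have h6 := (Int.fract_lt_one u).le
      nlinarith
    calc _ ≤ (1 + t) * (2 / Real.sqrt M) := by gcongr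
      _ = _ := by ring

/-- the approximation -/
theorem approx (N : ℕ) (hN : 1 ≤ N) (t : ℝ) (h1 : (N : ℝ) ≤ 4 * t) (h2 : t ≤ 3 * N) :
    ‖zt t - DD N t‖ ≤ 220 := by
  have hN1 : (1 : ℝ) ≤ N := by exact_mod_cast hN
  have ht : 0 < t := by linarith
  obtain ⟨K, hK⟩ : ∃ K, N + K = N * N := ⟨N * N - N, by
    have : N ≤ N * N := Nat.le_mul_self N
    omega⟩
  have hs : Real.sqrt ((N + K : ℕ) : ℝ) = N := by
    rw [hK, Nat.cast_mul, Real.sqrt_mul_self (by linarith)]
  have a1 := em (N + K) (by omega) t ht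
  have a2 := mid N K hN t ht h2
  rw [hs] at a1 a2
  rw [DD_add] at a1
  have a3 : (N : ℝ) / t ≤ 4 := by
    rw [div_le_iff₀ ht]
    exact h1
  have a4 : 2 * (1 + t) / N ≤ 8 := by
    rw [div_le_iff₀ (by linarith)]
    linarith
  have a5 : 52 * (N : ℝ) / t ≤ 208 := by
    rw [mul_div_assoc]
    linarith
  have a6 := norm_add_le (zt t - (DD N t + ∑ j ∈ range K, nz (N + 1 + j) t))
    (∑ j ∈ range K, nz (N + 1 + j) t)
  rw [show zt t - (DD N t + ∑ j ∈ range K, nz (N + 1 + j) t) + ∑ j ∈ range K, nz (N + 1 + j) t =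
    zt t - DD N t by ring] at a6
  linarith

end

end Pool.Agent.H932Z.FM
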