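import Pool.Agent.H932Z.FM.Poly
import Pool.Agent.H306R2.Asy

set_option autoImplicit false

/-! Asymptotics of the diagonal sums. -/

namespace Pool.Agent.H932Z.FM

open Finset MeasureTheory Filter Topology
open Pool.Agent.H306R2 (dv dA zR aF wt pos Gd gd)

noncomputable section

/-- weighted integral, normalised by `wI 1 = 1` -/
def wI (G : ℝ → ℝ) : ℝ := ∫ u in (0 : ℝ)..1, u ^ (-(3 / 4) : ℝ) / 4 * G u

/-- the constant `a_{1/2} / Γ(5/4)` -/
def cA : ℝ := aF (1 / 2) / Real.Gamma (5 / 4)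

lemma cA_pos : 0 < cA :=
  div_pos (H306R2.aF_pos (by norm_num)) (Real.Gamma_pos_of_pos (by norm_num))

theorem dg_tendsto (G : ℝ → ℝ) (hG : Continuous G) (hG1 : G 1 = 0) :
    Tendsto (fun T : ℝ => dg T G / Real.log T ^ (1 / 4 : ℝ)) atTop (𝓝 (cA * wI G)) := by
  set e : Fin 1 → ℝ := fun _ => 1 / 2 with he
  have he0 : ∀ i, 0 < e i := fun i => by simp [he]
  have hs : ∑ i, e i = 1 / 2 := by simp [he]
  have H := H306R2.wt_KH e he0 one_pos
  have hlim := fun s hs' => H306R2.wt_tendsto e he0 one_pos s hs'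
  rw [hs] at H hlim
  set φ : (Fin 1 → ℝ) → ℝ := fun u => G (min (u 0) 1) with hφ
  have hφc : Continuous φ := hG.comp (by fun_prop)
  have hk := H306R2.karamata H ((1 / 2) ^ 2) (aF (1 / 2)) (H306R2.aF_pos (by norm_num)).le
    (fun i => 1 / 2 * e i) (fun i => by have := he0 i; positivity) hlim φ hφc 1 (by
      rintro u - ⟨i, hi⟩
      simp only [hφ]
      rw [Subsingleton.elim i 0] at hi
      rw [min_eq_right hi, hG1]) zero_le_one
  have e1 : ∫ u : Fin 1 → ℝ, Gd (fun i => 1 / 2 * e i) u * φ u =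
      ∫ x : ℝ, gd (1 / 4) x * G (min x 1) := by
    rw [← (volume_preserving_funUnique (Fin 1) ℝ).integral_comp']
    refine integral_congr_ae (Eventually.of_forall fun u => ?_)
    simp only [Gd, hφ, he, Fin.prod_univ_one, MeasurableEquiv.funUnique_apply,
      Fin.default_eq_zero]
    norm_num
  have e2 : ∫ x : ℝ, gd (1 / 4) x * G (min x 1) = wI G / Real.Gamma (5 / 4) := by
    have e3 : (fun x : ℝ => gd (1 / 4) x * G (min x 1)) = Set.indicator (Set.Ioc 0 1)
        (fun u => u ^ (-(3 / 4) : ℝ) / 4 * G u / Real.Gamma (5 / 4)) := by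
      funext x
      unfold gd
      by_cases hx : x ∈ Set.Ioc (0 : ℝ) 1
      · rw [Set.indicator_of_mem hx, if_pos hx.1, min_eq_left hx.2,
          show (5 / 4 : ℝ) = 1 / 4 + 1 by norm_num, Real.Gamma_add_one (by norm_num),
          show (1 / 4 - 1 : ℝ) = -(3 / 4) by norm_num]
        have := (Real.Gamma_pos_of_pos (by norm_num : (0 : ℝ) < 1 / 4)).ne'
        field_simp
      · rw [Set.indicator_of_notMem hx]
        split_ifs with h
        · have : 1 ≤ x := by
            by_contra hc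
            exact hx ⟨h, (not_le.1 hc).le⟩
          rw [min_eq_right this, hG1, mul_zero]
        · rw [zero_mul]
    rw [e3, integral_indicator measurableSet_Ioc, ← intervalIntegral.integral_of_le zero_le_one,
      intervalIntegral.integral_div]
    rfl
  rw [e1, e2] at hk
  have e4 : aF (1 / 2) * (wI G / Real.Gamma (5 / 4)) = cA * wI G := by
    unfold cA
    ring
  rw [e4, show ((1 / 2 : ℝ)) ^ 2 = 1 / 4 by norm_num] at hk
  refine (hk.comp Real.tendsto_log_atTop).congr' ?_
  filter_upwards [eventually_gt_atTop 1] with T hT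
  simp only [Function.comp]
  congr 1
  rw [← (Equiv.funUnique (Fin 1) ℕ).symm.tsum_eq]
  have e5 : ∀ n : ℕ, wt (1 / 2) e ((Equiv.funUnique (Fin 1) ℕ).symm n) *
      φ (pos (Real.log T) ((Equiv.funUnique (Fin 1) ℕ).symm n)) =
      dh n ^ 2 / n * G (min (uu T n) 1) := by
    intro n
    simp only [wt, hφ, he, pos, Fin.prod_univ_one, Equiv.funUnique_symm_apply, uu, dh,
      uniqueElim_const]
    ring
  simp only [e5]
  rw [tsum_eq_sum (s := Icc 1 ⌊T⌋₊)]
  · unfold dg
    refine sum_congr rfl fun n hn => ?_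
    rw [min_eq_left (uu_le_one hT hn)]
  · intro n hn
    rw [mem_Icc, not_and_or] at hn
    rcases hn with hn | hn
    · have : n = 0 := by omega
      subst this
      simp
    · rw [min_eq_right (one_lt_uu hT (not_le.1 hn)).le, hG1, mul_zero]

lemma w_ii (G : ℝ → ℝ) (hG : Continuous G) :
    IntervalIntegrable (fun u : ℝ => u ^ (-(3 / 4) : ℝ) / 4 * G u) volume 0 1 :=
  ((intervalIntegral.intervalIntegrable_rpow' (by norm_num)).div_const 4).mul_continuousOn
    hG.continuousOn

lemma wI_mono {G H : ℝ → ℝ} (hG : Continuous G) (hH : Continuous H)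
    (h : ∀ u, 0 ≤ u → u ≤ 1 → G u ≤ H u) : wI G ≤ wI H := by
  unfold wI
  refine intervalIntegral.integral_mono_on zero_le_one (w_ii G hG) (w_ii H hH) fun u hu => ?_
  have : 0 ≤ u ^ (-(3 / 4) : ℝ) / 4 := by
    have := hu.1
    positivity
  exact mul_le_mul_of_nonneg_left (h u hu.1 hu.2) this

lemma wI_pow (k : ℕ) : wI (fun u => u ^ k) = 1 / (4 * k + 1) := by
  unfold wI
  have e : ∫ u in (0 : ℝ)..1, u ^ (-(3 / 4) : ℝ) / 4 * u ^ k =
      ∫ u in (0 : ℝ)..1, u ^ ((k : ℝ) - 3 / 4) / 4 := by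
    refine intervalIntegral.integral_congr_ae (Eventually.of_forall fun u hu => ?_)
    rw [Set.uIoc_of_le zero_le_one] at hu
    rw [← Real.rpow_natCast, show (k : ℝ) - 3 / 4 = -(3 / 4) + k by ring, Real.rpow_add hu.1]
    ring
  have hk : (0 : ℝ) ≤ k := Nat.cast_nonneg k
  rw [e, intervalIntegral.integral_div, integral_rpow (Or.inl (by linarith)), Real.one_rpow,
    Real.zero_rpow (by linarith)]
  rw [show (k : ℝ) - 3 / 4 + 1 = (4 * k + 1) / 4 by ring]
  have : 4 * (k : ℝ) + 1 ≠ 0 := by linarith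
  field_simp
  ring

lemma wI_poly (n : ℕ) (a : ℕ → ℝ) :
    wI (fun u => ∑ k ∈ range n, a k * u ^ k) = ∑ k ∈ range n, a k / (4 * k + 1) := by
  have e : ∀ k, a k / (4 * k + 1) = ∫ u in (0 : ℝ)..1, a k * (u ^ (-(3 / 4) : ℝ) / 4 * u ^ k) := by
    intro k
    rw [intervalIntegral.integral_const_mul]
    have := wI_pow k
    unfold wI at this
    rw [this]
    ring
  simp only [e]
  rw [← intervalIntegral.integral_finsetSum fun k _ =>
    (w_ii (fun u => u ^ k) (by fun_prop)).const_mul (a k)]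
  unfold wI
  refine intervalIntegral.integral_congr fun u _ => ?_
  simp only [mul_sum]
  refine sum_congr rfl fun k _ => ?_
  ring

end

end Pool.Agent.H932Z.FM
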