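import Pool.Agent.H370R2.MV

set_option autoImplicit false

/-! Mean values of Hermitian forms in the vector `n^(-1/2-it)`. -/

namespace Pool.Agent.H932Z.FM

open Finset MeasureTheory

noncomputable section

/-- `exp (i x)` -/
def ex (x : ℝ) : ℂ := Complex.exp ((x : ℂ) * Complex.I)

/-- `n^(-1/2)` -/
def rr (n : ℕ) : ℝ := (Real.sqrt n)⁻¹

/-- `n^(-1/2-it)` -/
def nz (n : ℕ) (t : ℝ) : ℂ := (rr n : ℂ) * ex (-(t * Real.log n))

/-- Hermitian form -/
def Hf (N : ℕ) (κ : ℕ → ℕ → ℝ) (t : ℝ) : ℝ :=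
  ∑ m ∈ Icc 1 N, ∑ n ∈ Icc 1 N, κ m n * (rr m * rr n * Real.cos (t * (Real.log m - Real.log n)))

lemma ex_add (x y : ℝ) : ex (x + y) = ex x * ex y := by
  unfold ex
  rw [← Complex.exp_add]
  congr 1
  push_cast
  ring

lemma norm_ex (x : ℝ) : ‖ex x‖ = 1 := Complex.norm_exp_ofReal_mul_I x

lemma ex_zero : ex 0 = 1 := by simp [ex]

lemma conj_ex (x : ℝ) : (starRingEnd ℂ) (ex x) = ex (-x) := by
  unfold ex
  rw [← Complex.exp_conj]
  congr 1
  rw [map_mul, Complex.conj_ofReal, Complex.conj_I]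
  push_cast
  ring

lemma ex_re (x : ℝ) : (ex x).re = Real.cos x := Complex.exp_ofReal_mul_I_re x

lemma ex_im (x : ℝ) : (ex x).im = Real.sin x := Complex.exp_ofReal_mul_I_im x

lemma ex_cont : Continuous ex := by
  unfold ex
  fun_prop

lemma norm_ex_sub_one (x : ℝ) : ‖ex x - 1‖ ≤ |x| := by
  unfold ex
  rw [mul_comm]
  exact Real.norm_exp_I_mul_ofReal_sub_one_le

lemma rr_nonneg (n : ℕ) : 0 ≤ rr n := by
  unfold rr
  positivity

lemma rr_sq (n : ℕ) : rr n * rr n = 1 / n := by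
  unfold rr
  rw [← mul_inv, Real.mul_self_sqrt (Nat.cast_nonneg n), one_div]

lemma rr_mul (m n : ℕ) : rr (m * n) = rr m * rr n := by
  unfold rr
  rw [Nat.cast_mul, Real.sqrt_mul (Nat.cast_nonneg m), mul_inv]

lemma nz_mul {m n : ℕ} (hm : 1 ≤ m) (hn : 1 ≤ n) (t : ℝ) : nz (m * n) t = nz m t * nz n t := by
  unfold nz
  have hm0 : (m : ℝ) ≠ 0 := by positivity
  have hn0 : (n : ℝ) ≠ 0 := by positivity
  rw [rr_mul, Nat.cast_mul, Real.log_mul hm0 hn0,
    show -(t * (Real.log m + Real.log n)) = -(t * Real.log m) + -(t * Real.log n) by ring, ex_add]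
  push_cast
  ring

lemma nz_shift (n : ℕ) (t τ : ℝ) : nz n (t + τ) = nz n t * ex (-(τ * Real.log n)) := by
  unfold nz
  rw [show -((t + τ) * Real.log n) = -(t * Real.log n) + -(τ * Real.log n) by ring, ex_add]
  ring

lemma nz_cont (n : ℕ) : Continuous (nz n) := by
  unfold nz
  exact continuous_const.mul (ex_cont.comp (by fun_prop))

lemma nz_conj_re (m n : ℕ) (t : ℝ) :
    (nz m t * (starRingEnd ℂ) (nz n t)).re =
      rr m * rr n * Real.cos (t * (Real.log m - Real.log n)) := by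
  unfold nz
  rw [map_mul, Complex.conj_ofReal, conj_ex, mul_mul_mul_comm, ← ex_add, ← Complex.ofReal_mul,
    Complex.re_ofReal_mul, ex_re, ← Real.cos_neg]
  congr 2
  ring

lemma nz_eq {n : ℕ} (hn : 1 ≤ n) (t : ℝ) :
    (n : ℂ) ^ (-(1 / 2 + (t : ℂ) * Complex.I)) = nz n t := by
  have hn0 : (n : ℂ) ≠ 0 := by
    have : n ≠ 0 := by omega
    exact_mod_cast this
  have hnp : (0 : ℝ) < n := by exact_mod_cast hn
  unfold nz ex rr
  rw [Complex.cpow_def_of_ne_zero hn0, ← Complex.natCast_log]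
  have h1 : ((Real.sqrt n)⁻¹ : ℝ) = Real.exp (-(Real.log n / 2)) := by
    rw [Real.exp_neg, Real.sqrt_eq_rpow, Real.rpow_def_of_pos hnp]
    congr 2
    ring
  rw [h1, Complex.ofReal_exp, ← Complex.exp_add]
  congr 1
  push_cast
  ring

lemma Hf_cont (N : ℕ) (κ : ℕ → ℕ → ℝ) : Continuous (Hf N κ) := by
  unfold Hf
  fun_prop

lemma norm_sq_eq (N : ℕ) (c : ℕ → ℝ) (t : ℝ) :
    ‖∑ n ∈ Icc 1 N, (c n : ℂ) * nz n t‖ ^ 2 = Hf N (fun m n => c m * c n) t := by
  rw [← Complex.normSq_eq_norm_sq]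
  have h : ∀ z : ℂ, Complex.normSq z = (z * (starRingEnd ℂ) z).re := by
    intro z
    rw [Complex.mul_conj, Complex.ofReal_re]
  rw [h, map_sum, sum_mul_sum, Complex.re_sum]
  unfold Hf
  refine sum_congr rfl fun m _ => ?_
  rw [Complex.re_sum]
  refine sum_congr rfl fun n _ => ?_
  rw [map_mul, Complex.conj_ofReal, mul_mul_mul_comm, ← Complex.ofReal_mul, Complex.re_ofReal_mul,
    nz_conj_re]

lemma log_gap_lt {m n : ℕ} (hm : 1 ≤ m) (h : m < n) :
    rr m * rr n / (Real.log n - Real.log m) ≤ rr m * rr n + 1 / ((n : ℝ) - m) := by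
  have hm0 : (0 : ℝ) < m := by exact_mod_cast hm
  have hmn : (m : ℝ) < n := by exact_mod_cast h
  have hn0 : (0 : ℝ) < n := by linarith
  have h1 : 1 - (m : ℝ) / n ≤ Real.log n - Real.log m := by
    have := Real.log_le_sub_one_of_pos (div_pos hm0 hn0)
    rw [Real.log_div hm0.ne' hn0.ne'] at this
    linarith
  have h2 : 0 < 1 - (m : ℝ) / n := by
    rw [sub_pos, div_lt_one hn0]
    exact hmn
  have h3 : rr m * rr n * m ≤ 1 := by
    have h4 : rr n ≤ rr m := by
      unfold rr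
      exact inv_anti₀ (Real.sqrt_pos.2 hm0) (Real.sqrt_le_sqrt hmn.le)
    calc rr m * rr n * m ≤ rr m * rr m * m := by
          gcongr
          exact rr_nonneg m
      _ = 1 := by rw [rr_sq]; field_simp
  have hr : 0 ≤ rr m * rr n := mul_nonneg (rr_nonneg m) (rr_nonneg n)
  calc rr m * rr n / (Real.log n - Real.log m) ≤ rr m * rr n / (1 - (m : ℝ) / n) := by gcongr
    _ = rr m * rr n + rr m * rr n * m / ((n : ℝ) - m) := by
        have : (n : ℝ) - m ≠ 0 := by linarith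
        field_simp
        ring
    _ ≤ _ := by
        have : 0 < (n : ℝ) - m := by linarith
        gcongr

lemma log_gap_abs {m n : ℕ} (hm : 1 ≤ m) (hn : 1 ≤ n) (h : m ≠ n) :
    rr m * rr n / |Real.log m - Real.log n| ≤ rr m * rr n + 1 / |(m : ℝ) - n| := by
  have hm0 : (0 : ℝ) < m := by exact_mod_cast hm
  have hn0 : (0 : ℝ) < n := by exact_mod_cast hn
  rcases lt_or_gt_of_ne h with h | h
  · have hmn : (m : ℝ) < n := by exact_mod_cast h
    have hl := Real.log_lt_log hm0 hmn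
    rw [abs_of_neg (by linarith), abs_of_neg (by linarith), neg_sub, neg_sub]
    exact log_gap_lt hm h
  · have hmn : (n : ℝ) < m := by exact_mod_cast h
    have hl := Real.log_lt_log hn0 hmn
    rw [abs_of_pos (by linarith), abs_of_pos (by linarith), mul_comm (rr m)]
    exact log_gap_lt hn h

lemma int_cos (a b l : ℝ) (hl : l ≠ 0) : |∫ t in a..b, Real.cos (t * l)| ≤ 2 / |l| := by
  rw [intervalIntegral.integral_comp_mul_right (fun x => Real.cos x) hl, integral_cos, smul_eq_mul,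
    abs_mul, abs_inv, div_eq_inv_mul]
  gcongr
  have h1 := Real.abs_sin_le_one (b * l)
  have h2 := Real.abs_sin_le_one (a * l)
  have := abs_sub (Real.sin (b * l)) (Real.sin (a * l))
  linarith

lemma harm_le (N : ℕ) : ∑ k ∈ Icc 1 N, 1 / (k : ℝ) ≤ 1 + Real.log N := by
  have h := harmonic_le_one_add_log N
  rw [harmonic_eq_sum_Icc] at h
  push_cast at h
  simpa [one_div] using h

/-- the mean value theorem for Hermitian forms -/
theorem mv (N : ℕ) (κ : ℕ → ℕ → ℝ) (v : ℕ → ℝ) (hv : ∀ n, 0 ≤ v n)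
    (hκ : ∀ m ∈ Icc 1 N, ∀ n ∈ Icc 1 N, |κ m n| ≤ v m * v n) (a b : ℝ) :
    |(∫ t in a..b, Hf N κ t) - (b - a) * ∑ n ∈ Icc 1 N, κ n n / n| ≤
      6 * (1 + Real.log N) * ∑ n ∈ Icc 1 N, v n ^ 2 := by
  have hint : ∫ t in a..b, Hf N κ t = ∑ m ∈ Icc 1 N, ∑ n ∈ Icc 1 N,
      κ m n * (rr m * rr n * ∫ t in a..b, Real.cos (t * (Real.log m - Real.log n))) := by
    unfold Hf
    rw [intervalIntegral.integral_finsetSum]
    · refine sum_congr rfl fun m _ => ?_
      rw [intervalIntegral.integral_finsetSum]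
      · refine sum_congr rfl fun n _ => ?_
        rw [intervalIntegral.integral_const_mul, intervalIntegral.integral_const_mul]
      · intro n _
        exact (by fun_prop : Continuous fun t : ℝ => κ m n * (rr m * rr n *
          Real.cos (t * (Real.log m - Real.log n)))).intervalIntegrable _ _
    · intro m _
      exact (by fun_prop : Continuous fun t : ℝ => ∑ n ∈ Icc 1 N, κ m n * (rr m * rr n *
          Real.cos (t * (Real.log m - Real.log n)))).intervalIntegrable _ _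
  have hdiag : (b - a) * ∑ n ∈ Icc 1 N, κ n n / n = ∑ m ∈ Icc 1 N, ∑ n ∈ Icc 1 N,
      if m = n then κ m n * (rr m * rr n *
        ∫ t in a..b, Real.cos (t * (Real.log m - Real.log n))) else 0 := by
    rw [mul_sum]
    refine sum_congr rfl fun m hm => ?_
    rw [sum_ite_eq, if_pos hm, rr_sq]
    simp
    ring
  rw [hint, hdiag, ← sum_sub_distrib]
  have hterm : ∀ m ∈ Icc 1 N, ∀ n ∈ Icc 1 N,
      |κ m n * (rr m * rr n * ∫ t in a..b, Real.cos (t * (Real.log m - Real.log n))) -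
        if m = n then κ m n * (rr m * rr n *
          ∫ t in a..b, Real.cos (t * (Real.log m - Real.log n))) else 0| ≤
      2 * ((v m * rr m) * (v n * rr n)) + (v m ^ 2 * (1 / |(m : ℝ) - n|) +
        v n ^ 2 * (1 / |(n : ℝ) - m|)) := by
    intro m hm n hn
    have hvm := hv m
    have hvn := hv n
    have hrm := rr_nonneg m
    have hrn := rr_nonneg n
    split_ifs with h
    · rw [sub_self, abs_zero]
      positivity
    · have hm1 := (mem_Icc.1 hm).1
      have hn1 := (mem_Icc.1 hn).1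
      have hm0 : (0 : ℝ) < m := by exact_mod_cast hm1
      have hn0 : (0 : ℝ) < n := by exact_mod_cast hn1
      have hl : Real.log m - Real.log n ≠ 0 := by
        intro h0
        apply h
        have := Real.log_injOn_pos (Set.mem_Ioi.2 hm0) (Set.mem_Ioi.2 hn0) (sub_eq_zero.1 h0)
        exact_mod_cast this
      have h1 := int_cos a b _ hl
      have h2 := log_gap_abs hm1 hn1 h
      rw [sub_zero, abs_mul, abs_mul, abs_of_nonneg (mul_nonneg hrm hrn), abs_sub_comm (n : ℝ) m]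
      have h3 : rr m * rr n * |∫ t in a..b, Real.cos (t * (Real.log m - Real.log n))| ≤
          2 * (rr m * rr n + 1 / |(m : ℝ) - n|) := by
        calc _ ≤ rr m * rr n * (2 / |Real.log m - Real.log n|) := by gcongr
          _ = 2 * (rr m * rr n / |Real.log m - Real.log n|) := by ring
          _ ≤ _ := by gcongr
      have h4 : 0 ≤ 1 / |(m : ℝ) - n| := by positivity
      calc _ ≤ (v m * v n) * (2 * (rr m * rr n + 1 / |(m : ℝ) - n|)) :=
            mul_le_mul (hκ m hm n hn) h3 (by positivity) (by positivity)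
        _ ≤ _ := by nlinarith [mul_nonneg (sq_nonneg (v m - v n)) h4]
  have hB : ∑ m ∈ Icc 1 N, ∑ n ∈ Icc 1 N, v m ^ 2 * (1 / |(m : ℝ) - n|) ≤
      2 * (1 + Real.log N) * ∑ n ∈ Icc 1 N, v n ^ 2 := by
    rw [mul_sum]
    refine sum_le_sum fun m hm => ?_
    rw [← mul_sum]
    have := H370.MV.harm_sum N m hm
    nlinarith [sq_nonneg (v m)]
  have hC : ∑ m ∈ Icc 1 N, ∑ n ∈ Icc 1 N, v n ^ 2 * (1 / |(n : ℝ) - m|) ≤
      2 * (1 + Real.log N) * ∑ n ∈ Icc 1 N, v n ^ 2 := by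
    rw [sum_comm]
    exact hB
  have hA : ∑ m ∈ Icc 1 N, ∑ n ∈ Icc 1 N, 2 * ((v m * rr m) * (v n * rr n)) ≤
      2 * (1 + Real.log N) * ∑ n ∈ Icc 1 N, v n ^ 2 := by
    have e1 : ∑ m ∈ Icc 1 N, ∑ n ∈ Icc 1 N, 2 * ((v m * rr m) * (v n * rr n)) =
        2 * (∑ n ∈ Icc 1 N, v n * rr n) ^ 2 := by
      rw [sq, sum_mul_sum, mul_sum]
      refine sum_congr rfl fun m _ => ?_
      rw [mul_sum]
    rw [e1]
    have h1 := sum_mul_sq_le_sq_mul_sq (Icc 1 N) v rr
    have h2 : ∑ n ∈ Icc 1 N, rr n ^ 2 ≤ 1 + Real.log N := by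
      refine le_trans (le_of_eq ?_) (harm_le N)
      exact sum_congr rfl fun n _ => by rw [sq, rr_sq]
    have h3 : 0 ≤ ∑ n ∈ Icc 1 N, v n ^ 2 := sum_nonneg fun n _ => sq_nonneg _
    nlinarith
  refine (abs_sum_le_sum_abs _ _).trans ?_
  refine (sum_le_sum fun m hm => ?_ : _ ≤ ∑ m ∈ Icc 1 N, ∑ n ∈ Icc 1 N,
    (2 * ((v m * rr m) * (v n * rr n)) + (v m ^ 2 * (1 / |(m : ℝ) - n|) +
        v n ^ 2 * (1 / |(n : ℝ) - m|)))).trans ?_
  · rw [← sum_sub_distrib]
    exact (abs_sum_le_sum_abs _ _).trans (sum_le_sum fun n hn => hterm m hm n hn)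
  · simp_rw [sum_add_distrib]
    linarith

end

end Pool.Agent.H932Z.FM
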