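import Pool.Agent.H932Z.FM.Approx
import Pool.Agent.H345R2.Chi

set_option autoImplicit false

/-! The functional equation on the critical line, and dyadic summation. -/

namespace Pool.Agent.H932Z.FM

open Finset MeasureTheory Filter

noncomputable section

/-- the factor of the functional equation -/
def Xc (t : ℝ) : ℂ := H345.XX (1 / 2 + (t : ℂ) * Complex.I)

lemma norm_Xc (t : ℝ) : ‖Xc t‖ = 1 := H345.norm_XX_half t

lemma conj_zt (t : ℝ) : (starRingEnd ℂ) (zt t) = Xc t * zt t := by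
  unfold zt Xc
  have hre : (1 / 2 + (t : ℂ) * Complex.I).re = 1 / 2 := by simp
  rw [← H345.zeta_fe _ (by
    intro n h
    rw [h] at hre
    simp at hre
    have : (0 : ℝ) ≤ n := Nat.cast_nonneg n
    linarith) (by
    intro h
    rw [h] at hre
    norm_num at hre), ← riemannZeta_conj]
  congr 1
  simp only [map_add, map_div₀, map_one, map_mul, Complex.conj_ofReal, Complex.conj_I,
    Complex.conj_ofNat]
  ring

lemma zt_cont : Continuous zt := by
  rw [continuous_iff_continuousAt]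
  intro t
  have hre : (1 / 2 + (t : ℂ) * Complex.I).re = 1 / 2 := by simp
  have h : DifferentiableAt ℂ riemannZeta (1 / 2 + (t : ℂ) * Complex.I) := by
    apply differentiableAt_riemannZeta
    intro h
    rw [h] at hre
    norm_num at hre
  exact ContinuousAt.comp (f := fun t : ℝ => 1 / 2 + (t : ℂ) * Complex.I) h.continuousAt
    (by fun_prop)

lemma Xc_cont : Continuous Xc := by
  unfold Xc H345.XX
  refine Continuous.mul (Continuous.mul (continuous_const.mul ?_) ?_) (by fun_prop)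
  · exact Continuous.const_cpow (by fun_prop) (Or.inl H345.Chi.two_pi_ne)
  · rw [continuous_iff_continuousAt]
    intro t
    have hre : (1 / 2 + (t : ℂ) * Complex.I).re = 1 / 2 := by simp
    have h : DifferentiableAt ℂ Complex.Gamma (1 / 2 + (t : ℂ) * Complex.I) := by
      apply Complex.differentiableAt_Gamma
      intro n h
      rw [h] at hre
      simp at hre
      have : (0 : ℝ) ≤ n := Nat.cast_nonneg n
      linarith
    exact ContinuousAt.comp (f := fun t : ℝ => 1 / 2 + (t : ℂ) * Complex.I) h.continuousAt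
      (by fun_prop)

theorem phase {δ : ℝ} (hδ : 0 < δ) : ∀ᶠ T : ℝ in atTop, ∀ t : ℝ, T / 3 ≤ t → t ≤ 2 * T →
    ∀ τ : ℝ, |τ| ≤ 1 → ‖Xc (t + τ) - Xc t * ex (τ * Real.log T)‖ ≤ δ + 4 * |τ| := by
  obtain ⟨C, T0, hC, hT0, h⟩ := H345.XX_local
  filter_upwards [eventually_ge_atTop (3 * T0), eventually_ge_atTop (6 * C / δ)] with T hT1 hT2
    t ht1 ht2 τ hτ
  have hT : 0 < T := by linarith
  have ht : 0 < t := by linarith
  have h1 := h t (by linarith) τ (by linarith)
  have h2 : C * (1 + τ ^ 2) / t ≤ δ := by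
    rw [div_le_iff₀ ht]
    rw [div_le_iff₀ hδ] at hT2
    have : τ ^ 2 ≤ 1 := by
      rw [← sq_abs]
      nlinarith [abs_nonneg τ]
    nlinarith
  have hpi := Real.pi_gt_three
  have hpi2 := Real.pi_lt_d2
  have h3 : |Real.log (t / (2 * Real.pi)) - Real.log T| ≤ 4 := by
    rw [← Real.log_div (by positivity) hT.ne', abs_le]
    constructor
    · rw [Real.le_log_iff_exp_le (by positivity), Real.exp_neg, le_div_iff₀ hT,
        le_div_iff₀ (by positivity)]
      have h4 : (19 : ℝ) ≤ Real.exp 4 := by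
        have := Real.add_one_le_exp (1 : ℝ)
        have h5 : Real.exp 4 = Real.exp 1 ^ 4 := by
          rw [← Real.exp_nat_mul]
          norm_num
        rw [h5]
        have h6 : (2.7 : ℝ) ≤ Real.exp 1 := by linarith [Real.exp_one_gt_d9]
        calc (19 : ℝ) ≤ 2.7 ^ 4 := by norm_num
          _ ≤ _ := by gcongr
      have h5 : (Real.exp 4)⁻¹ ≤ 1 / 19 := by
        rw [one_div]
        exact inv_anti₀ (by norm_num) h4
      calc (Real.exp 4)⁻¹ * T * (2 * Real.pi) ≤ 1 / 19 * T * (2 * 3.15) := by gcongr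
        _ ≤ t := by linarith
    · refine (Real.log_le_sub_one_of_pos (by positivity)).trans ?_
      have : t / (2 * Real.pi) / T ≤ 1 := by
        rw [div_div, div_le_one (by positivity)]
        nlinarith
      linarith
  have h4 : ‖ex (τ * Real.log (t / (2 * Real.pi))) - ex (τ * Real.log T)‖ ≤ 4 * |τ| := by
    have e : ex (τ * Real.log (t / (2 * Real.pi))) - ex (τ * Real.log T) =
        ex (τ * Real.log T) * (ex (τ * (Real.log (t / (2 * Real.pi)) - Real.log T)) - 1) := by
      rw [mul_sub, ← ex_add, mul_one]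
      congr 2
      ring
    rw [e, norm_mul, norm_ex, one_mul]
    refine (norm_ex_sub_one _).trans ?_
    rw [abs_mul]
    nlinarith [abs_nonneg τ]
  have e : Xc (t + τ) - Xc t * ex (τ * Real.log T) =
      (Xc (t + τ) - Xc t * ex (τ * Real.log (t / (2 * Real.pi)))) +
        Xc t * (ex (τ * Real.log (t / (2 * Real.pi))) - ex (τ * Real.log T)) := by ring
  rw [e]
  refine (norm_add_le _ _).trans (add_le_add (le_trans h1 h2) ?_)
  rw [norm_mul, norm_Xc, one_mul]
  exact h4

lemma approxT {T : ℝ} (hT : 3 ≤ T) {t : ℝ} (h1 : T / 3 ≤ t) (h2 : t ≤ 2 * T) :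
    ‖zt t - DD ⌊T⌋₊ t‖ ≤ 220 := by
  have h3 := Nat.floor_le (show 0 ≤ T by linarith)
  have h4 := Nat.lt_floor_add_one T
  exact approx _ (Nat.floor_pos.2 (by linarith)) t (by linarith) (by linarith)

lemma dy_induct (P : ℝ → Prop) (T0 : ℝ) (hT0 : 2 ≤ T0) (h1 : ∀ T, 1 ≤ T → T ≤ T0 → P T)
    (h2 : ∀ T, T0 ≤ T → P (T / 2) → P T) (T : ℝ) (hT : 1 ≤ T) : P T := by
  have key : ∀ n : ℕ, ∀ T, 1 ≤ T → T ≤ 2 ^ n * T0 → P T := by
    intro n
    induction n with
    | zero => intro T a b; exact h1 T a (by simpa using b)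
    | succ n ih =>
      intro T a b
      rcases le_total T T0 with h | h
      · exact h1 T a h
      · refine h2 T h (ih _ (by linarith) ?_)
        rw [pow_succ] at b
        linarith
  obtain ⟨n, hn⟩ := pow_unbounded_of_one_lt T (one_lt_two : (1 : ℝ) < 2)
  refine key n T hT ?_
  have : (0 : ℝ) < 2 ^ n := by positivity
  nlinarith

lemma split_int (f : ℝ → ℝ) (hf : Continuous f) (T : ℝ) :
    ∫ t in (0 : ℝ)..T, f t = (∫ t in (0 : ℝ)..(T / 2), f t) + ∫ t in (T / 2)..T, f t :=
  (intervalIntegral.integral_add_adjacent_intervals (hf.intervalIntegrable _ _)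
    (hf.intervalIntegrable _ _)).symm

lemma lq_tendsto : Tendsto (fun T : ℝ => Real.log T ^ (1 / 4 : ℝ)) atTop atTop :=
  (tendsto_rpow_atTop (by norm_num)).comp Real.tendsto_log_atTop

theorem dy_upper (f : ℝ → ℝ) (hf : Continuous f) (hf0 : ∀ t, 0 ≤ f t) {c c' : ℝ} (hc : 0 ≤ c)
    (hcc : c < c')
    (h : ∀ᶠ T : ℝ in atTop, ∫ t in (T / 2)..T, f t ≤ c * (T / 2 * Real.log T ^ (1 / 4 : ℝ))) :
    ∀ᶠ T : ℝ in atTop, ∫ t in (0 : ℝ)..T, f t ≤ c' * (T * Real.log T ^ (1 / 4 : ℝ)) := by
  obtain ⟨T1, hT1⟩ := eventually_atTop.1 h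
  set T0 := max T1 2 with hT0
  set K := ∫ t in (0 : ℝ)..T0, f t with hK
  have key := dy_induct (fun T => ∫ t in (0 : ℝ)..T, f t ≤
      c * (T * Real.log T ^ (1 / 4 : ℝ)) + K) T0 (le_max_right _ _) (by
    intro T a b
    have h1 : ∫ t in (0 : ℝ)..T, f t ≤ K :=
      intervalIntegral.integral_mono_interval le_rfl (by linarith) b
        (Eventually.of_forall hf0) (hf.intervalIntegrable _ _)
    have h2 : 0 ≤ Real.log T := Real.log_nonneg a
    have h3 : 0 ≤ c * (T * Real.log T ^ (1 / 4 : ℝ)) := by positivity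
    linarith) (by
    intro T a b
    have h2 : 2 ≤ T := (le_max_right _ _).trans a
    have h1 := hT1 T ((le_max_left _ _).trans a)
    rw [split_int f hf T]
    have h3 : Real.log (T / 2) ^ (1 / 4 : ℝ) ≤ Real.log T ^ (1 / 4 : ℝ) := by
      apply Real.rpow_le_rpow (Real.log_nonneg (by linarith)) _ (by norm_num)
      exact Real.log_le_log (by linarith) (by linarith)
    have h4 : c * (T / 2 * Real.log (T / 2) ^ (1 / 4 : ℝ)) ≤
        c * (T / 2 * Real.log T ^ (1 / 4 : ℝ)) := by gcongr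
    linarith)
  filter_upwards [eventually_ge_atTop 1, eventually_ge_atTop (K / (c' - c)),
    lq_tendsto.eventually_ge_atTop 1] with T a b d
  have h1 := key T a
  rw [div_le_iff₀ (by linarith)] at b
  have h2 : T * (c' - c) ≤ (c' - c) * (T * Real.log T ^ (1 / 4 : ℝ)) := by
    have : 0 < c' - c := by linarith
    have : T ≤ T * Real.log T ^ (1 / 4 : ℝ) := by nlinarith
    nlinarith
  linarith

theorem dy_lower (f : ℝ → ℝ) (hf : Continuous f) (hf0 : ∀ t, 0 ≤ f t) {c c' : ℝ} (hc : 0 ≤ c)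
    (hcc : c' < c)
    (h : ∀ᶠ T : ℝ in atTop, c * (T / 2 * Real.log T ^ (1 / 4 : ℝ)) ≤ ∫ t in (T / 2)..T, f t) :
    ∀ᶠ T : ℝ in atTop, c' * (T * Real.log T ^ (1 / 4 : ℝ)) ≤ ∫ t in (0 : ℝ)..T, f t := by
  obtain ⟨T1, hT1⟩ := eventually_atTop.1 h
  set T0 := max T1 2 with hT0
  have hT02 : 2 ≤ T0 := le_max_right _ _
  have hq0 : 0 ≤ Real.log T0 ^ (1 / 4 : ℝ) := Real.rpow_nonneg (Real.log_nonneg (by linarith)) _
  set K := c * (1 + Real.log T0 ^ (1 / 4 : ℝ)) with hK
  have key := dy_induct (fun T => c * (T * Real.log T ^ (1 / 4 : ℝ)) - K * T ≤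
      ∫ t in (0 : ℝ)..T, f t) T0 hT02 (by
    intro T a b
    have h1 : 0 ≤ ∫ t in (0 : ℝ)..T, f t :=
      intervalIntegral.integral_nonneg (by linarith) fun t _ => hf0 t
    have h3 : Real.log T ^ (1 / 4 : ℝ) ≤ Real.log T0 ^ (1 / 4 : ℝ) := by
      apply Real.rpow_le_rpow (Real.log_nonneg a) _ (by norm_num)
      exact Real.log_le_log (by linarith) b
    have h4 : c * (T * Real.log T ^ (1 / 4 : ℝ)) ≤ c * (T * (1 + Real.log T0 ^ (1 / 4 : ℝ))) := by
      gcongr
      linarith
    rw [hK]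
    linarith) (by
    intro T a b
    have h2 : 2 ≤ T := hT02.trans a
    have h1 := hT1 T ((le_max_left _ _).trans a)
    rw [split_int f hf T]
    have h3 : Real.log T ^ (1 / 4 : ℝ) ≤ Real.log (T / 2) ^ (1 / 4 : ℝ) + 1 := by
      have e : Real.log T = Real.log (T / 2) + Real.log 2 := by
        rw [Real.log_div (by linarith) (by norm_num)]
        ring
      have hl2 : 0 ≤ Real.log 2 := Real.log_nonneg (by norm_num)
      rw [e]
      refine (Real.rpow_add_le_add_rpow (Real.log_nonneg (by linarith)) hl2 (by norm_num)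
        (by norm_num)).trans ?_
      have : Real.log 2 ^ (1 / 4 : ℝ) ≤ 1 :=
        Real.rpow_le_one hl2 (by linarith [Real.log_two_lt_d9]) (by norm_num)
      linarith
    have h4 : c * (T / 2 * Real.log T ^ (1 / 4 : ℝ)) ≤
        c * (T / 2 * (Real.log (T / 2) ^ (1 / 4 : ℝ) + 1)) := by gcongr
    have h5 : c * (T / 2) ≤ K * (T / 2) := by
      rw [hK]
      gcongr
      nlinarith
    nlinarith)
  filter_upwards [eventually_ge_atTop 1, lq_tendsto.eventually_ge_atTop (K / (c - c'))] with T a d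
  have h1 := key T a
  rw [div_le_iff₀ (by linarith)] at d
  have h2 : K * T ≤ Real.log T ^ (1 / 4 : ℝ) * (c - c') * T := by gcongr
  nlinarith

end

end Pool.Agent.H932Z.FM
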