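import Pool.Agent.H932Z.FM.Quad
import Pool.Agent.H306R2.Arith

set_option autoImplicit false

/-! Truncated Dirichlet polynomials for the square root of zeta. -/

namespace Pool.Agent.H932Z.FM

open Finset MeasureTheory
open Pool.Agent.H306R2 (dv dA zR)

noncomputable section

/-- `log n / log T` -/
def uu (T : ℝ) (n : ℕ) : ℝ := Real.log n / Real.log T

/-- `d_{1/2}` -/
def dh (n : ℕ) : ℝ := dv (1 / 2) n

/-- the polynomial with coefficients `g(log n / log T)` -/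
def PP (T : ℝ) (g : ℝ → ℝ) (t : ℝ) : ℂ := ∑ n ∈ Icc 1 ⌊T⌋₊, (g (uu T n) : ℂ) * nz n t

/-- truncated polynomials -/
def SS (T : ℝ) (φ : ℝ → ℝ) (t x : ℝ) : ℂ :=
  ∑ n ∈ Icc 1 ⌊T⌋₊, ((dh n * cut φ (uu T n) x : ℝ) : ℂ) * nz n t

/-- kernel -/
def kk (T : ℝ) (φ : ℝ → ℝ) (m n : ℕ) : ℝ :=
  dh m * dh n * ∫ x in (0 : ℝ)..1, cut φ (uu T m) x * cut φ (uu T n) x

/-- diagonal sums -/
def dg (T : ℝ) (G : ℝ → ℝ) : ℝ := ∑ n ∈ Icc 1 ⌊T⌋₊, dh n ^ 2 / n * G (uu T n)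

lemma PP_cont (T : ℝ) (g : ℝ → ℝ) : Continuous (PP T g) := by
  unfold PP
  exact continuous_finsetSum _ fun n _ => continuous_const.mul (nz_cont n)

lemma dh_nonneg (n : ℕ) : 0 ≤ dh n := H306R2.dv_nonneg (by norm_num) n

lemma dh_le_one (n : ℕ) : dh n ≤ 1 := by
  have h := H306R2.dv_mono (α := 1 / 2) (β := 1) (by norm_num) (by norm_num) n
  refine h.trans ?_
  rw [← H306R2.dA_apply, H306R2.dA_one]
  simp only [zR, ArithmeticFunction.natCoe_apply, ArithmeticFunction.zeta_apply]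
  split_ifs <;> norm_num

lemma dh_conv {k : ℕ} (hk : k ≠ 0) : ∑ x ∈ k.divisorsAntidiagonal, dh x.1 * dh x.2 = 1 := by
  have h := H306R2.dA_mul (1 / 2) (1 / 2)
  rw [show (1 / 2 + 1 / 2 : ℝ) = 1 by norm_num, H306R2.dA_one] at h
  have h2 := congrArg (fun f : ArithmeticFunction ℝ => f k) h
  simp only [ArithmeticFunction.mul_apply, zR, ArithmeticFunction.natCoe_apply,
    ArithmeticFunction.zeta_apply, if_neg hk, Nat.cast_one] at h2
  exact h2

lemma uu_nonneg {T : ℝ} (hT : 1 < T) (n : ℕ) : 0 ≤ uu T n :=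
  div_nonneg (Real.log_natCast_nonneg n) (Real.log_pos hT).le

lemma uu_le_one {T : ℝ} (hT : 1 < T) {n : ℕ} (hn : n ∈ Icc 1 ⌊T⌋₊) : uu T n ≤ 1 := by
  rw [mem_Icc] at hn
  unfold uu
  rw [div_le_one (Real.log_pos hT)]
  have h1 : (0 : ℝ) < n := by exact_mod_cast hn.1
  exact Real.log_le_log h1 ((Nat.le_floor_iff (by linarith)).1 hn.2)

lemma one_lt_uu {T : ℝ} (hT : 1 < T) {n : ℕ} (hn : ⌊T⌋₊ < n) : 1 < uu T n := by
  unfold uu
  rw [one_lt_div (Real.log_pos hT)]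
  exact Real.log_lt_log (by linarith) ((Nat.floor_lt (by linarith)).1 hn)

lemma uu_mul (T : ℝ) {m n : ℕ} (hm : 1 ≤ m) (hn : 1 ≤ n) : uu T (m * n) = uu T m + uu T n := by
  unfold uu
  have hm0 : (m : ℝ) ≠ 0 := by positivity
  have hn0 : (n : ℝ) ≠ 0 := by positivity
  rw [Nat.cast_mul, Real.log_mul hm0 hn0, add_div]

lemma regroup (N : ℕ) (F : ℕ → ℂ) (hF : ∀ k, N < k → F k = 0) :
    ∑ m ∈ Icc 1 N, ∑ n ∈ Icc 1 N, ((dh m * dh n : ℝ) : ℂ) * F (m * n) = ∑ k ∈ Icc 1 N, F k := by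
  rw [← sum_product']
  rw [← sum_filter_add_sum_filter_not (Icc 1 N ×ˢ Icc 1 N) (fun x => x.1 * x.2 ≤ N)]
  rw [sum_eq_zero (s := filter (fun x : ℕ × ℕ => ¬ x.1 * x.2 ≤ N) _) (by
    intro x hx
    rw [mem_filter] at hx
    rw [hF _ (not_le.1 hx.2), mul_zero]), add_zero]
  rw [← sum_fiberwise_of_maps_to (t := Icc 1 N) (g := fun x : ℕ × ℕ => x.1 * x.2) (by
    intro x hx
    simp only [mem_filter, mem_product, mem_Icc] at hx
    rw [mem_Icc]
    exact ⟨Nat.mul_pos hx.1.1.1 hx.1.2.1, hx.2⟩)]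
  refine sum_congr rfl fun k hk => ?_
  rw [mem_Icc] at hk
  have e : filter (fun x : ℕ × ℕ => x.1 * x.2 = k)
      (filter (fun x : ℕ × ℕ => x.1 * x.2 ≤ N) (Icc 1 N ×ˢ Icc 1 N)) = k.divisorsAntidiagonal := by
    ext x
    simp only [mem_filter, mem_product, mem_Icc, Nat.mem_divisorsAntidiagonal]
    constructor
    · rintro ⟨_, h⟩
      exact ⟨h, by omega⟩
    · rintro ⟨h, _⟩
      have h1 : 0 < x.1 := Nat.pos_of_mul_pos_right (show 0 < x.1 * x.2 by omega)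
      have h2 : 0 < x.2 := Nat.pos_of_mul_pos_left (show 0 < x.1 * x.2 by omega)
      have h3 : x.1 ≤ x.1 * x.2 := Nat.le_mul_of_pos_right _ h2
      have h4 : x.2 ≤ x.1 * x.2 := Nat.le_mul_of_pos_left _ h1
      exact ⟨⟨⟨⟨h1, by omega⟩, ⟨h2, by omega⟩⟩, by omega⟩, h⟩
  rw [e]
  have h2 : ∀ x ∈ k.divisorsAntidiagonal, ((dh x.1 * dh x.2 : ℝ) : ℂ) * F (x.1 * x.2) =
      ((dh x.1 * dh x.2 : ℝ) : ℂ) * F k := by
    intro x hx
    rw [(Nat.mem_divisorsAntidiagonal.1 hx).1]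
  rw [sum_congr rfl h2, ← sum_mul, ← Complex.ofReal_sum, dh_conv (by omega)]
  simp

lemma SS_BM (T : ℝ) {φ : ℝ → ℝ} (hφ : Continuous φ) (t : ℝ) : BM (SS T φ t) := by
  unfold SS
  exact BM.sum _ fun n _ => (((BM.const _).mul (cut_BM hφ _)).ofReal).mul (BM.const _)

/-- the product formula -/
theorem conv_eq {T : ℝ} (hT : 1 < T) {φ ψ : ℝ → ℝ} (hφ : Continuous φ) (hψ : Continuous ψ)
    (g : ℝ → ℝ) (hg : ∀ u, 0 ≤ u → u ≤ 1 → ∫ r in (0 : ℝ)..(1 - u), φ r * ψ (1 - u - r) = g u)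
    (t : ℝ) : ∫ x in (0 : ℝ)..1, SS T φ t x * SS T ψ t (1 - x) = PP T g t := by
  set N := ⌊T⌋₊ with hN
  set F : ℕ → ℂ := fun k => if k ≤ N then (g (uu T k) : ℂ) * nz k t else 0 with hF
  have h1 : PP T g t = ∑ k ∈ Icc 1 N, F k := by
    unfold PP
    refine sum_congr rfl fun k hk => ?_
    simp only [hF, if_pos (mem_Icc.1 hk).2]
  rw [h1, ← regroup N F (fun k hk => by simp only [hF, if_neg (not_le.2 hk)])]
  unfold SS
  simp only [sum_mul_sum]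
  have hB : ∀ m n : ℕ, BM (fun x => ((dh m * cut φ (uu T m) x : ℝ) : ℂ) * nz m t *
      (((dh n * cut ψ (uu T n) (1 - x) : ℝ) : ℂ) * nz n t)) := fun m n =>
    ((((BM.const _).mul (cut_BM hφ _)).ofReal).mul (BM.const _)).mul
      ((((BM.const _).mul (cut_BM hψ _).refl).ofReal).mul (BM.const _))
  rw [intervalIntegral.integral_finsetSum fun m _ => (BM.sum _ fun n _ => hB m n).ii]
  refine sum_congr rfl fun m hm => ?_
  rw [intervalIntegral.integral_finsetSum fun n _ => (hB m n).ii]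
  refine sum_congr rfl fun n hn => ?_
  have hm1 := (mem_Icc.1 hm).1
  have hn1 := (mem_Icc.1 hn).1
  have e : ∀ x, ((dh m * cut φ (uu T m) x : ℝ) : ℂ) * nz m t *
      (((dh n * cut ψ (uu T n) (1 - x) : ℝ) : ℂ) * nz n t) =
      (((dh m * dh n : ℝ) : ℂ) * nz (m * n) t) *
        ((cut φ (uu T m) x * cut ψ (uu T n) (1 - x) : ℝ) : ℂ) := by
    intro x
    rw [nz_mul hm1 hn1]
    push_cast
    ring
  simp only [e]
  rw [intervalIntegral.integral_const_mul, intervalIntegral.integral_ofReal]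
  by_cases h : m * n ≤ N
  · have h2 : uu T (m * n) ≤ 1 := uu_le_one hT (mem_Icc.2 ⟨Nat.mul_pos hm1 hn1, h⟩)
    rw [int_cut_conv hφ hψ (uu_nonneg hT m) (uu_nonneg hT n) (by rwa [← uu_mul T hm1 hn1]),
      ← uu_mul T hm1 hn1, hg _ (uu_nonneg hT _) h2]
    simp only [hF, if_pos h]
    ring
  · rw [int_cut_conv_zero φ ψ (by rw [← uu_mul T hm1 hn1]; exact one_lt_uu hT (not_le.1 h))]
    simp only [hF, if_neg h]
    simp

theorem sq_eq (T : ℝ) {φ : ℝ → ℝ} (hφ : Continuous φ) (t : ℝ) :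
    ∫ x in (0 : ℝ)..1, ‖SS T φ t x‖ ^ 2 = Hf ⌊T⌋₊ (kk T φ) t := by
  unfold SS
  simp only [norm_sq_eq]
  unfold Hf
  have hB : ∀ m n : ℕ, BM (fun x => dh m * cut φ (uu T m) x * (dh n * cut φ (uu T n) x) *
      (rr m * rr n * Real.cos (t * (Real.log m - Real.log n)))) := fun m n =>
    (((BM.const _).mul (cut_BM hφ _)).mul ((BM.const _).mul (cut_BM hφ _))).mul (BM.const _)
  rw [intervalIntegral.integral_finsetSum fun m _ => (BM.sum _ fun n _ => hB m n).ii]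
  refine sum_congr rfl fun m _ => ?_
  rw [intervalIntegral.integral_finsetSum fun n _ => (hB m n).ii]
  refine sum_congr rfl fun n _ => ?_
  unfold kk
  rw [intervalIntegral.integral_mul_const, ← intervalIntegral.integral_const_mul]
  congr 1
  refine intervalIntegral.integral_congr fun x _ => ?_
  ring

lemma sum_one_sub_uu {T : ℝ} (hT : 1 < T) :
    ∑ n ∈ Icc 1 ⌊T⌋₊, (1 - uu T n) ≤ T / Real.log T := by
  have hL := Real.log_pos hT
  have hT0 : 0 < T := by linarith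
  have key : ∀ N : ℕ, ∑ n ∈ Icc 1 N, (Real.log T - Real.log n) =
      Real.log (T ^ N / (N.factorial : ℝ)) := by
    intro N
    induction N with
    | zero => simp
    | succ N ih =>
      rw [sum_Icc_succ_top (by omega), ih, Nat.factorial_succ]
      have h1 : (0 : ℝ) < N.factorial := by exact_mod_cast N.factorial_pos
      rw [← Real.log_div hT0.ne' (by positivity), ← Real.log_mul (by positivity) (by positivity)]
      congr 1
      push_cast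
      field_simp
      ring
  have e : ∑ n ∈ Icc 1 ⌊T⌋₊, (1 - uu T n) =
      (∑ n ∈ Icc 1 ⌊T⌋₊, (Real.log T - Real.log n)) / Real.log T := by
    rw [sum_div]
    refine sum_congr rfl fun n _ => ?_
    unfold uu
    field_simp
  rw [e, key]
  gcongr
  rw [Real.log_le_iff_le_exp (by
    have h1 : (0 : ℝ) < (⌊T⌋₊).factorial := by exact_mod_cast (⌊T⌋₊).factorial_pos
    positivity)]
  exact Real.pow_div_factorial_le_exp T hT0.le _

/-- mean value with errors of order `T` -/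
theorem mv_err {T : ℝ} (hT : 3 ≤ T) (κ : ℕ → ℕ → ℝ) {M : ℝ} (hM : 0 ≤ M)
    (hκ : ∀ m ∈ Icc 1 ⌊T⌋₊, ∀ n ∈ Icc 1 ⌊T⌋₊,
      |κ m n| ≤ (M * Real.sqrt (1 - uu T m)) * (M * Real.sqrt (1 - uu T n))) (a b : ℝ) :
    |(∫ t in a..b, Hf ⌊T⌋₊ κ t) - (b - a) * ∑ n ∈ Icc 1 ⌊T⌋₊, κ n n / n| ≤ 12 * M ^ 2 * T := by
  have hT1 : 1 < T := by linarith
  have h := mv ⌊T⌋₊ κ (fun n => M * Real.sqrt (1 - uu T n)) (fun n => by positivity) hκ a b
  refine h.trans ?_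
  have h1 : ∑ n ∈ Icc 1 ⌊T⌋₊, (M * Real.sqrt (1 - uu T n)) ^ 2 ≤ M ^ 2 * (T / Real.log T) := by
    refine le_trans (le_of_eq ?_) (mul_le_mul_of_nonneg_left (sum_one_sub_uu hT1) (sq_nonneg M))
    rw [mul_sum]
    refine sum_congr rfl fun n hn => ?_
    rw [mul_pow, Real.sq_sqrt (by linarith [uu_le_one hT1 hn])]
  have hL : 1 ≤ Real.log T := by
    rw [Real.le_log_iff_exp_le (by linarith)]
    linarith [Real.exp_one_lt_d9]
  have h2 : Real.log (⌊T⌋₊ : ℕ) ≤ Real.log T := by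
    have : (1 : ℝ) ≤ (⌊T⌋₊ : ℕ) := by exact_mod_cast Nat.floor_pos.2 hT1.le
    exact Real.log_le_log (by linarith) (Nat.floor_le (by linarith))
  have h3 : 0 ≤ Real.log (⌊T⌋₊ : ℕ) := Real.log_natCast_nonneg _
  calc _ ≤ 6 * (2 * Real.log T) * (M ^ 2 * (T / Real.log T)) := by
        gcongr
        linarith
    _ = _ := by field_simp; ring

theorem mv_kk {T : ℝ} (hT : 3 ≤ T) {φ : ℝ → ℝ} (hφ : Continuous φ) {M : ℝ} (hM : ∀ r, |φ r| ≤ M)
    (a b : ℝ) :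
    |(∫ t in a..b, Hf ⌊T⌋₊ (kk T φ) t) -
      (b - a) * dg T (fun u => ∫ r in (0 : ℝ)..(1 - u), φ r ^ 2)| ≤ 12 * M ^ 2 * T := by
  have hT1 : 1 < T := by linarith
  have hM0 : 0 ≤ M := (abs_nonneg _).trans (hM 0)
  have h := mv_err hT (kk T φ) hM0 (by
    intro m hm n hn
    unfold kk
    have h1 := int_cut_abs hφ hM (uu_nonneg hT1 m) (uu_le_one hT1 hm) (uu_nonneg hT1 n)
      (uu_le_one hT1 hn)
    rw [abs_mul, abs_of_nonneg (mul_nonneg (dh_nonneg m) (dh_nonneg n))]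
    have h2 : dh m * dh n ≤ 1 := mul_le_one₀ (dh_le_one m) (dh_nonneg n) (dh_le_one n)
    calc _ ≤ 1 * ((M * Real.sqrt (1 - uu T m)) * (M * Real.sqrt (1 - uu T n))) := by gcongr
      _ = _ := one_mul _) a b
  have e : ∑ n ∈ Icc 1 ⌊T⌋₊, kk T φ n n / n =
      dg T (fun u => ∫ r in (0 : ℝ)..(1 - u), φ r ^ 2) := by
    unfold dg kk
    refine sum_congr rfl fun n hn => ?_
    rw [int_cut_sq hφ (uu_nonneg hT1 n) (uu_le_one hT1 hn)]
    ring
  rwa [e] at h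

end

end Pool.Agent.H932Z.FM
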