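import Pool.Agent.H932Z.FM.MV

set_option autoImplicit false

/-! Pointwise inequalities for the integral of `S(x) R(1-x)` over `[0,1]`. -/

namespace Pool.Agent.H932Z.FM

open Finset MeasureTheory

noncomputable section

/-- measurable and bounded on `[0,1]` -/
def BM {E : Type} [NormedAddCommGroup E] [MeasurableSpace E] (S : ℝ → E) : Prop :=
  Measurable S ∧ ∃ C, ∀ x ∈ Set.Icc (0 : ℝ) 1, ‖S x‖ ≤ C

lemma BM.ii {E : Type} [NormedAddCommGroup E] [MeasurableSpace E] [BorelSpace E]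
    [SecondCountableTopology E] {S : ℝ → E} (h : BM S) : IntervalIntegrable S volume 0 1 := by
  obtain ⟨hm, C, hC⟩ := h
  rw [intervalIntegrable_iff_integrableOn_Icc_of_le zero_le_one]
  refine Measure.integrableOn_of_bounded (M := C) (by simp) hm.aestronglyMeasurable ?_
  exact (ae_restrict_mem measurableSet_Icc).mono hC

lemma BM.of_cont {E : Type} [NormedAddCommGroup E] [MeasurableSpace E] [BorelSpace E]
    {S : ℝ → E} (h : Continuous S) : BM S := by
  refine ⟨h.measurable, ?_⟩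
  exact isCompact_Icc.exists_bound_of_continuousOn h.continuousOn

lemma BM.refl {E : Type} [NormedAddCommGroup E] [MeasurableSpace E]
    {S : ℝ → E} (h : BM S) : BM (fun x => S (1 - x)) := by
  obtain ⟨hm, C, hC⟩ := h
  refine ⟨hm.comp (by fun_prop), C, fun x hx => hC _ ⟨by linarith [hx.2], by linarith [hx.1]⟩⟩

lemma BM.mul {E : Type} [RCLike E] [MeasurableSpace E] [BorelSpace E]
    {S R : ℝ → E} (h : BM S) (h' : BM R) : BM (fun x => S x * R x) := by
  obtain ⟨hm, C, hC⟩ := h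
  obtain ⟨hm', C', hC'⟩ := h'
  refine ⟨hm.mul hm', C * C', fun x hx => ?_⟩
  rw [norm_mul]
  exact mul_le_mul (hC x hx) (hC' x hx) (norm_nonneg _) ((norm_nonneg _).trans (hC x hx))

lemma BM.add {E : Type} [RCLike E] [MeasurableSpace E] [BorelSpace E]
    {S R : ℝ → E} (h : BM S) (h' : BM R) : BM (fun x => S x + R x) := by
  obtain ⟨hm, C, hC⟩ := h
  obtain ⟨hm', C', hC'⟩ := h'
  exact ⟨hm.add hm', C + C', fun x hx => (norm_add_le _ _).trans (add_le_add (hC x hx) (hC' x hx))⟩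

lemma BM.sub {E : Type} [RCLike E] [MeasurableSpace E] [BorelSpace E]
    {S R : ℝ → E} (h : BM S) (h' : BM R) : BM (fun x => S x - R x) := by
  obtain ⟨hm, C, hC⟩ := h
  obtain ⟨hm', C', hC'⟩ := h'
  exact ⟨hm.sub hm', C + C', fun x hx => (norm_sub_le _ _).trans (add_le_add (hC x hx) (hC' x hx))⟩

lemma BM.const {E : Type} [NormedAddCommGroup E] [MeasurableSpace E] (c : E) :
    BM (fun _ : ℝ => c) := ⟨measurable_const, ‖c‖, fun _ _ => le_rfl⟩

lemma BM.sum {E : Type} [RCLike E] [MeasurableSpace E] [BorelSpace E] {ι : Type} (s : Finset ι)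
    {S : ι → ℝ → E} (h : ∀ i ∈ s, BM (S i)) : BM (fun x => ∑ i ∈ s, S i x) := by
  classical
  induction s using Finset.induction_on with
  | empty => simpa using BM.const (0 : E)
  | insert a s ha ih =>
    simp only [sum_insert ha]
    exact (h a (mem_insert_self _ _)).add (ih fun i hi => h i (mem_insert_of_mem hi))

lemma BM.ofReal {f : ℝ → ℝ} (h : BM f) : BM (fun x => (f x : ℂ)) := by
  obtain ⟨hm, C, hC⟩ := h
  refine ⟨Complex.measurable_ofReal.comp hm, C, fun x hx => ?_⟩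
  rw [Complex.norm_real]
  exact hC x hx

lemma BM.norm {S : ℝ → ℂ} (h : BM S) : BM (fun x => ‖S x‖) := by
  obtain ⟨hm, C, hC⟩ := h
  exact ⟨hm.norm, C, fun x hx => by rw [norm_norm]; exact hC x hx⟩

lemma BM.normsq {S : ℝ → ℂ} (h : BM S) : BM (fun x => ‖S x‖ ^ 2) := by
  simp only [sq]
  exact h.norm.mul h.norm

lemma BM.re {S : ℝ → ℂ} (h : BM S) : BM (fun x => (S x).re) := by
  obtain ⟨hm, C, hC⟩ := h
  exact ⟨Complex.measurable_re.comp hm, C, fun x hx =>
    (Complex.abs_re_le_norm _).trans (hC x hx)⟩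

lemma int_refl {E : Type} [NormedAddCommGroup E] [NormedSpace ℝ E] (f : ℝ → E) :
    ∫ x in (0 : ℝ)..1, f (1 - x) = ∫ x in (0 : ℝ)..1, f x := by
  rw [intervalIntegral.integral_comp_sub_left]
  simp

/-- upper bound -/
theorem q_upper {S R : ℝ → ℂ} (hS : BM S) (hR : BM R) {σ : ℝ} (hσ : 0 < σ) :
    ‖∫ x in (0 : ℝ)..1, S x * R (1 - x)‖ ≤
      (σ * (∫ x in (0 : ℝ)..1, ‖S x‖ ^ 2) + σ⁻¹ * ∫ x in (0 : ℝ)..1, ‖R x‖ ^ 2) / 2 := by
  rw [← int_refl (fun x => ‖R x‖ ^ 2), ← intervalIntegral.integral_const_mul,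
    ← intervalIntegral.integral_const_mul,
    ← intervalIntegral.integral_add (((BM.const σ).mul hS.normsq).ii)
      (((BM.const σ⁻¹).mul hR.refl.normsq).ii), ← intervalIntegral.integral_div]
  refine intervalIntegral.norm_integral_le_of_norm_le zero_le_one
    (Filter.Eventually.of_forall fun x _ => ?_) ?_
  · rw [norm_mul]
    have h : 0 ≤ σ⁻¹ * (σ * ‖S x‖ - ‖R (1 - x)‖) ^ 2 := by positivity
    have e : σ⁻¹ * (σ * ‖S x‖ - ‖R (1 - x)‖) ^ 2 =
        σ * ‖S x‖ ^ 2 + σ⁻¹ * ‖R (1 - x)‖ ^ 2 - 2 * (‖S x‖ * ‖R (1 - x)‖) := by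
      field_simp
      ring
    linarith
  · exact ((((BM.const σ).mul hS.normsq).add ((BM.const σ⁻¹).mul hR.refl.normsq)).ii).div_const 2

/-- lower bound -/
theorem q_lower {S : ℝ → ℂ} (hS : BM S) {e : ℝ → ℝ} (he : Continuous e)
    (hsym : ∀ x, e (1 - x) = e x) {ν : ℝ} (hν : ∫ x in (0 : ℝ)..1, e x ^ 2 = ν) (hν0 : 0 < ν) :
    2 * ‖∫ x in (0 : ℝ)..1, (e x : ℂ) * S x‖ ^ 2 / ν - ∫ x in (0 : ℝ)..1, ‖S x‖ ^ 2 ≤
      ‖∫ x in (0 : ℝ)..1, S x * S (1 - x)‖ := by
  set q : ℂ := ∫ x in (0 : ℝ)..1, (e x : ℂ) * S x with hq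
  set p : ℂ := q / ν with hp
  have hν1 : (ν : ℂ) ≠ 0 := by exact_mod_cast hν0.ne'
  have hpq : q = p * ν := by rw [hp]; field_simp
  have hE : BM (fun x => (e x : ℂ)) := (BM.of_cont he).ofReal
  set R : ℝ → ℂ := fun x => S x - p * e x with hR
  have hRB : BM R := hS.sub ((BM.const p).mul hE)
  have hee : ∫ x in (0 : ℝ)..1, (e x : ℂ) * e x = ν := by
    rw [← hν, ← intervalIntegral.integral_ofReal]
    refine intervalIntegral.integral_congr fun x _ => ?_
    push_cast
    ring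
  have heR : ∫ x in (0 : ℝ)..1, (e x : ℂ) * R x = 0 := by
    have e1 : ∀ x, (e x : ℂ) * R x = (e x : ℂ) * S x - p * ((e x : ℂ) * e x) := by
      intro x
      simp only [hR]
      ring
    simp only [e1]
    rw [intervalIntegral.integral_sub (hE.mul hS).ii ((BM.const p).mul (hE.mul hE)).ii,
      intervalIntegral.integral_const_mul, hee, ← hq, hpq, sub_self]
  have heR' : ∫ x in (0 : ℝ)..1, (e x : ℂ) * R (1 - x) = 0 := by
    rw [← heR, ← int_refl (fun x => (e x : ℂ) * R x)]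
    simp only [hsym]
  have h1 : ∫ x in (0 : ℝ)..1, S x * S (1 - x) =
      p ^ 2 * ν + ∫ x in (0 : ℝ)..1, R x * R (1 - x) := by
    have e1 : ∀ x, S x * S (1 - x) = (p ^ 2 * ((e x : ℂ) * e x) + R x * R (1 - x)) +
        (p * ((e x : ℂ) * R x) + p * ((e x : ℂ) * R (1 - x))) := by
      intro x
      simp only [hR, hsym]
      ring
    simp only [e1]
    rw [intervalIntegral.integral_add
      (((BM.const (p ^ 2)).mul (hE.mul hE)).add (hRB.mul hRB.refl)).ii
      (((BM.const p).mul (hE.mul hRB)).add ((BM.const p).mul (hE.mul hRB.refl))).ii,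
      intervalIntegral.integral_add ((BM.const (p ^ 2)).mul (hE.mul hE)).ii (hRB.mul hRB.refl).ii,
      intervalIntegral.integral_add ((BM.const p).mul (hE.mul hRB)).ii
        ((BM.const p).mul (hE.mul hRB.refl)).ii,
      intervalIntegral.integral_const_mul, intervalIntegral.integral_const_mul,
      intervalIntegral.integral_const_mul, hee, heR, heR']
    ring
  have h2 : ∫ x in (0 : ℝ)..1, ‖S x‖ ^ 2 = ‖p‖ ^ 2 * ν + ∫ x in (0 : ℝ)..1, ‖R x‖ ^ 2 := by
    have e1 : ∀ x, ‖S x‖ ^ 2 = (‖p‖ ^ 2 * e x ^ 2 + ‖R x‖ ^ 2) +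
        (2 * (starRingEnd ℂ) p * ((e x : ℂ) * R x)).re := by
      intro x
      have e2 : S x = p * e x + R x := by simp only [hR]; ring
      rw [e2, ← Complex.normSq_eq_norm_sq, ← Complex.normSq_eq_norm_sq, ← Complex.normSq_eq_norm_sq]
      simp only [Complex.normSq_apply, Complex.add_re, Complex.add_im, Complex.mul_re,
        Complex.mul_im, Complex.ofReal_re, Complex.ofReal_im, Complex.conj_re, Complex.conj_im,
        Complex.re_ofNat, Complex.im_ofNat]
      ring
    simp only [e1]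
    have hB : BM (fun x => 2 * (starRingEnd ℂ) p * ((e x : ℂ) * R x)) :=
      (BM.const _).mul (hE.mul hRB)
    have hB2 : BM (fun x => ‖p‖ ^ 2 * e x ^ 2) := BM.of_cont (by fun_prop)
    rw [intervalIntegral.integral_add (hB2.add hRB.normsq).ii hB.re.ii,
      intervalIntegral.integral_add hB2.ii hRB.normsq.ii, intervalIntegral.integral_const_mul, hν]
    have h3 : ∫ x in (0 : ℝ)..1, (2 * (starRingEnd ℂ) p * ((e x : ℂ) * R x)).re = 0 := by
      have := Complex.reCLM.intervalIntegral_comp_comm hB.ii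
      simp only [Complex.reCLM_apply] at this
      rw [this, intervalIntegral.integral_const_mul, heR]
      simp
    rw [h3, add_zero]
  have h3 := q_upper hRB hRB one_pos
  have h4 : ‖q‖ ^ 2 / ν = ‖p‖ ^ 2 * ν := by
    rw [hpq, norm_mul, Complex.norm_real, Real.norm_of_nonneg hν0.le]
    field_simp
  have h5 : ‖p ^ 2 * ν‖ = ‖p‖ ^ 2 * ν := by
    rw [norm_mul, norm_pow, Complex.norm_real, Real.norm_of_nonneg hν0.le]
  have h6 := norm_sub_le (p ^ 2 * ν + ∫ x in (0 : ℝ)..1, R x * R (1 - x))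
    (∫ x in (0 : ℝ)..1, R x * R (1 - x))
  rw [add_sub_cancel_right, h5] at h6
  rw [h1, h2, mul_div_assoc, h4]
  simp only [inv_one, one_mul] at h3
  linarith

/-- `φ(x - a)` for `x ≥ a`, else zero -/
def cut (φ : ℝ → ℝ) (a x : ℝ) : ℝ := if a ≤ x then φ (x - a) else 0

lemma cut_BM {φ : ℝ → ℝ} (hφ : Continuous φ) (a : ℝ) : BM (cut φ a) := by
  have hc : Continuous (fun x => φ (x - a)) := by fun_prop
  obtain ⟨hm, C, hC⟩ := BM.of_cont hc
  refine ⟨Measurable.ite measurableSet_Ici hm measurable_const, C, fun x hx => ?_⟩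
  unfold cut
  split_ifs
  · exact hC x hx
  · rw [norm_zero]
    exact (norm_nonneg _).trans (hC x hx)

/-- integrals of functions cut off on both sides -/
lemma int_cut (f : ℝ → ℝ) (_hf : Continuous f) {a b : ℝ} (ha : 0 ≤ a) (hab : a ≤ b) (hb : b ≤ 1)
    (g : ℝ → ℝ) (h1 : ∀ x, a ≤ x → x ≤ b → g x = f x) (h2 : ∀ x, x < a ∨ b < x → g x = 0) :
    ∫ x in (0 : ℝ)..1, g x = ∫ x in a..b, f x := by
  have e : g = Set.indicator (Set.Icc a b) f := by
    funext x
    by_cases hx : x ∈ Set.Icc a b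
    · rw [Set.indicator_of_mem hx, h1 x hx.1 hx.2]
    · rw [Set.indicator_of_notMem hx]
      apply h2
      by_contra hc
      push Not at hc
      exact hx ⟨hc.1, hc.2⟩
  rw [e, intervalIntegral.integral_of_le zero_le_one, intervalIntegral.integral_of_le hab,
    ← integral_Icc_eq_integral_Ioc, ← integral_Icc_eq_integral_Ioc,
    setIntegral_indicator measurableSet_Icc,
    Set.inter_eq_self_of_subset_right (Set.Icc_subset_Icc ha hb)]

lemma int_cut_conv {φ ψ : ℝ → ℝ} (hφ : Continuous φ) (hψ : Continuous ψ) {a b : ℝ} (ha : 0 ≤ a)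
    (hb : 0 ≤ b) (hab : a + b ≤ 1) :
    ∫ x in (0 : ℝ)..1, cut φ a x * cut ψ b (1 - x) =
      ∫ r in (0 : ℝ)..(1 - (a + b)), φ r * ψ (1 - (a + b) - r) := by
  rw [int_cut (fun x => φ (x - a) * ψ (1 - x - b)) (by fun_prop) ha (by linarith : a ≤ 1 - b)
    (by linarith)]
  · have := intervalIntegral.integral_comp_sub_right (fun r => φ r * ψ (1 - (a + b) - r)) a
      (a := a) (b := 1 - b)
    rw [sub_self, show 1 - b - a = 1 - (a + b) by ring] at this
    rw [← this]
    refine intervalIntegral.integral_congr fun x _ => ?_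
    congr 2
    ring
  · intro x h1 h2
    unfold cut
    rw [if_pos h1, if_pos (by linarith)]
  · intro x hx
    unfold cut
    rcases hx with h | h
    · rw [if_neg (by linarith), zero_mul]
    · rw [if_neg (show ¬ b ≤ 1 - x by linarith), mul_zero]

lemma int_cut_conv_zero (φ ψ : ℝ → ℝ) {a b : ℝ} (hab : 1 < a + b) :
    ∫ x in (0 : ℝ)..1, cut φ a x * cut ψ b (1 - x) = 0 := by
  have : ∀ x, cut φ a x * cut ψ b (1 - x) = 0 := by
    intro x
    unfold cut
    by_cases h : a ≤ x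
    · rw [if_neg (show ¬ b ≤ 1 - x by linarith), mul_zero]
    · rw [if_neg h, zero_mul]
  simp [this]

lemma int_cut_sq {φ : ℝ → ℝ} (hφ : Continuous φ) {a : ℝ} (ha : 0 ≤ a) (ha1 : a ≤ 1) :
    ∫ x in (0 : ℝ)..1, cut φ a x * cut φ a x = ∫ r in (0 : ℝ)..(1 - a), φ r ^ 2 := by
  have hg : ∫ x in (0 : ℝ)..1, cut φ a x * cut φ a x =
      ∫ x in (0 : ℝ)..1, (if x ≤ 1 then cut φ a x * cut φ a x else 0) := by
    refine intervalIntegral.integral_congr fun x hx => ?_
    rw [Set.uIcc_of_le zero_le_one] at hx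
    simp only [if_pos hx.2]
  rw [hg, int_cut (fun x => φ (x - a) ^ 2) (by fun_prop) ha ha1 le_rfl]
  · have := intervalIntegral.integral_comp_sub_right (fun r => φ r ^ 2) a (a := a) (b := 1)
    rw [sub_self] at this
    exact this
  · intro x h1 h2
    unfold cut
    rw [if_pos h2, if_pos h1, sq]
  · intro x hx
    unfold cut
    rcases hx with h | h
    · rw [if_neg (show ¬ a ≤ x by linarith), zero_mul, ite_self]
    · rw [if_neg (show ¬ x ≤ 1 by linarith)]

lemma int_cut_abs {φ : ℝ → ℝ} (hφ : Continuous φ) {M : ℝ} (hM : ∀ r, |φ r| ≤ M) {a b : ℝ}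
    (ha : 0 ≤ a) (ha1 : a ≤ 1) (hb : 0 ≤ b) (hb1 : b ≤ 1) :
    |∫ x in (0 : ℝ)..1, cut φ a x * cut φ b x| ≤
      (M * Real.sqrt (1 - a)) * (M * Real.sqrt (1 - b)) := by
  have hM0 : 0 ≤ M := (abs_nonneg _).trans (hM 0)
  wlog hab : a ≤ b generalizing a b
  · have := this hb hb1 ha ha1 (by linarith)
    simp only [mul_comm (cut φ b _)] at this
    rwa [mul_comm (M * _)] at this
  have hg : ∫ x in (0 : ℝ)..1, cut φ a x * cut φ b x =
      ∫ x in (0 : ℝ)..1, (if x ≤ 1 then cut φ a x * cut φ b x else 0) := by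
    refine intervalIntegral.integral_congr fun x hx => ?_
    rw [Set.uIcc_of_le zero_le_one] at hx
    simp only [if_pos hx.2]
  rw [hg, int_cut (fun x => φ (x - a) * φ (x - b)) (by fun_prop) hb hb1 le_rfl]
  · have h1 := intervalIntegral.norm_integral_le_of_norm_le_const (a := b) (b := 1) (C := M * M)
      (f := fun x => φ (x - a) * φ (x - b)) (fun x _ => by
        rw [norm_mul]
        exact mul_le_mul (hM _) (hM _) (norm_nonneg _) hM0)
    rw [abs_of_nonneg (by linarith : 0 ≤ 1 - b)] at h1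
    refine h1.trans ?_
    have h2 : 1 - b ≤ Real.sqrt (1 - a) * Real.sqrt (1 - b) := by
      calc 1 - b = Real.sqrt (1 - b) * Real.sqrt (1 - b) :=
            (Real.mul_self_sqrt (by linarith)).symm
        _ ≤ _ := by
          gcongr
    nlinarith [mul_nonneg hM0 hM0]
  · intro x h1 h2
    unfold cut
    rw [if_pos h2, if_pos h1, if_pos (by linarith)]
  · intro x hx
    unfold cut
    rcases hx with h | h
    · rw [if_neg (show ¬ b ≤ x by linarith), mul_zero, ite_self]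
    · rw [if_neg (show ¬ x ≤ 1 by linarith)]

end

end Pool.Agent.H932Z.FM
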