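import Pool.Agent.H932Z.FM.Kar

set_option autoImplicit false

/-! Numerical constants for the upper bound. -/

namespace Pool.Agent.H932Z.FM

open Finset MeasureTheory Filter Topology

noncomputable section

/-- first factor -/
def fa (r : ℝ) : ℝ := Real.cos (Real.pi / 4 * r)

/-- second factor -/
def fb (r : ℝ) : ℝ := Real.pi / 2 * (1 / 4 + 3 / 4 * Real.cos (Real.pi / 2 * r))

lemma fa_cont : Continuous fa := by
  unfold fa
  fun_prop

lemma fb_cont : Continuous fb := by
  unfold fb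
  fun_prop

lemma fa_le (r : ℝ) : |fa r| ≤ 1 := Real.abs_cos_le_one _

lemma fb_le (r : ℝ) : |fb r| ≤ 2 := by
  unfold fb
  have h1 := Real.cos_le_one (Real.pi / 2 * r)
  have h2 := Real.neg_one_le_cos (Real.pi / 2 * r)
  have h3 := Real.pi_lt_d2
  have h4 := Real.pi_pos
  rw [abs_le]
  constructor <;> nlinarith

lemma fab_conv (v : ℝ) :
    ∫ r in (0 : ℝ)..v, fa r * fb (v - r) = Real.sin (Real.pi / 2 * v) := by
  set q := Real.pi / 4 with hq
  have hd : ∀ r ∈ Set.uIcc (0 : ℝ) v, HasDerivAt (fun r => 1 / 2 * Real.sin (q * r) -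
      3 / 4 * Real.sin (2 * q * v - q * r) - 1 / 4 * Real.sin (2 * q * v - 3 * q * r))
      (fa r * fb (v - r)) r := by
    intro r _
    have h1 : HasDerivAt (fun r => q * r) q r := by simpa using (hasDerivAt_id r).const_mul q
    have h2 : HasDerivAt (fun r => 2 * q * v - q * r) (-q) r := h1.const_sub _
    have h3 : HasDerivAt (fun r => 2 * q * v - 3 * q * r) (-(3 * q)) r := by
      have : HasDerivAt (fun r => 3 * q * r) (3 * q) r := by
        simpa using (hasDerivAt_id r).const_mul (3 * q)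
      exact this.const_sub _
    have h := ((h1.sin.const_mul (1 / 2)).sub (h2.sin.const_mul (3 / 4))).sub
      (h3.sin.const_mul (1 / 4))
    refine HasDerivAt.congr_deriv h ?_
    unfold fa fb
    rw [← hq, show Real.pi / 2 = 2 * q by rw [hq]; ring,
      show 2 * q * v - q * r = 2 * q * (v - r) + q * r by ring,
      show 2 * q * v - 3 * q * r = 2 * q * (v - r) - q * r by ring, Real.cos_add, Real.cos_sub]
    ring
  rw [intervalIntegral.integral_eq_sub_of_hasDerivAt hd
    ((fa_cont.mul (fb_cont.comp (by fun_prop))).intervalIntegrable _ _)]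
  rw [show Real.pi / 2 = 2 * q by rw [hq]; ring, show 2 * q * v - q * v = q * v by ring,
    show 2 * q * v - 3 * q * v = -(q * v) by ring, Real.sin_neg]
  simp
  ring

lemma cos_le4 {x : ℝ} (hx : 0 ≤ x) : Real.cos x ≤ 1 - x ^ 2 / 2 + x ^ 4 / 24 := by
  have h := intervalIntegral.integral_mono_on (μ := volume) hx
    ((by fun_prop : Continuous fun s : ℝ => s - s ^ 3 / 6).intervalIntegrable _ _)
    (Real.continuous_sin.intervalIntegrable _ _) fun s hs => Real.sin_ge_sub_cube hs.1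
  rw [integral_sin, intervalIntegral.integral_sub (by simp) (by simp), integral_id,
    intervalIntegral.integral_div, integral_pow] at h
  simp at h
  linarith

lemma cos_le_p {r : ℝ} (h0 : 0 ≤ r) :
    Real.cos (Real.pi / 2 * r) ≤ 1 - 1.2337 * r ^ 2 + 0.2537 * r ^ 4 := by
  have h1 := Real.pi_gt_d6
  have h2 := Real.pi_lt_d6
  have h := cos_le4 (x := Real.pi / 2 * r) (by positivity)
  have h3 : 9.8696 ≤ Real.pi ^ 2 := by nlinarith
  have h4 : Real.pi ^ 2 ≤ 9.86961 := by nlinarith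
  have h5 : Real.pi ^ 4 ≤ 97.42 := by nlinarith
  have e : 1 - (Real.pi / 2 * r) ^ 2 / 2 + (Real.pi / 2 * r) ^ 4 / 24 =
      1 - Real.pi ^ 2 / 8 * r ^ 2 + Real.pi ^ 4 / 384 * r ^ 4 := by ring
  have h6 : 1.2337 * r ^ 2 ≤ Real.pi ^ 2 / 8 * r ^ 2 := by
    gcongr
    linarith
  have h7 : Real.pi ^ 4 / 384 * r ^ 4 ≤ 0.2537 * r ^ 4 := by
    gcongr
    linarith
  linarith

/-- the diagonal weight -/
def GG (φ : ℝ → ℝ) (u : ℝ) : ℝ := ∫ r in (0 : ℝ)..(1 - u), φ r ^ 2

lemma GG_cont {φ : ℝ → ℝ} (hφ : Continuous φ) : Continuous (GG φ) := by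
  unfold GG
  exact (intervalIntegral.continuous_primitive
    (fun a b => (hφ.pow 2).intervalIntegrable a b) 0).comp (by fun_prop)

lemma GG_one (φ : ℝ → ℝ) : GG φ 1 = 0 := by simp [GG]

lemma int_poly (a b c d v : ℝ) :
    ∫ r in (0 : ℝ)..v, (1 + a * r ^ 2 + b * r ^ 4 + c * r ^ 6 + d * r ^ 8) =
      v + a / 3 * v ^ 3 + b / 5 * v ^ 5 + c / 7 * v ^ 7 + d / 9 * v ^ 9 := by
  have hd : ∀ r ∈ Set.uIcc (0 : ℝ) v, HasDerivAt
      (fun v => v + a / 3 * v ^ 3 + b / 5 * v ^ 5 + c / 7 * v ^ 7 + d / 9 * v ^ 9)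
      (1 + a * r ^ 2 + b * r ^ 4 + c * r ^ 6 + d * r ^ 8) r := by
    intro r _
    have h := (((((hasDerivAt_id r).add ((hasDerivAt_pow 3 r).const_mul (a / 3))).add
      ((hasDerivAt_pow 5 r).const_mul (b / 5))).add
      ((hasDerivAt_pow 7 r).const_mul (c / 7))).add ((hasDerivAt_pow 9 r).const_mul (d / 9)))
    refine HasDerivAt.congr_deriv h ?_
    norm_num
    ring
  rw [intervalIntegral.integral_eq_sub_of_hasDerivAt hd
    ((by fun_prop : Continuous fun r : ℝ =>
      1 + a * r ^ 2 + b * r ^ 4 + c * r ^ 6 + d * r ^ 8).intervalIntegrable _ _)]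
  simp

lemma wI_odd (a b c d : ℝ) :
    wI (fun u => (1 - u) + a * (1 - u) ^ 3 + b * (1 - u) ^ 5 + c * (1 - u) ^ 7 + d * (1 - u) ^ 9) =
      4 / 5 + a * (128 / 195) + b * (8192 / 13923) + c * (262144 / 480675) +
        d * (33554432 / 65211575) := by
  have h := wI_poly 10 (fun k => ![1, -1, 0, 0, 0, 0, 0, 0, 0, 0] ⟨k % 10, by omega⟩ +
    (-1) ^ k * (a * Nat.choose 3 k + b * Nat.choose 5 k + c * Nat.choose 7 k + d * Nat.choose 9 k))
  have e : (fun u : ℝ => (1 - u) + a * (1 - u) ^ 3 + b * (1 - u) ^ 5 + c * (1 - u) ^ 7 +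
      d * (1 - u) ^ 9) = fun u => ∑ k ∈ range 10,
      (![1, -1, 0, 0, 0, 0, 0, 0, 0, 0] ⟨k % 10, by omega⟩ + (-1) ^ k * (a * Nat.choose 3 k +
      b * Nat.choose 5 k + c * Nat.choose 7 k + d * Nat.choose 9 k)) * u ^ k := by
    funext u
    simp [sum_range_succ, Nat.choose]
    ring
  rw [e, h]
  simp [sum_range_succ, Nat.choose]
  ring

lemma wa_le : wI (GG fa) ≤ 0.67996 := by
  have h := wI_mono (GG_cont fa_cont) (H := fun u => (1 - u) + (-0.61685 / 3) * (1 - u) ^ 3 +
      (0.12685 / 5) * (1 - u) ^ 5 + (0 / 7) * (1 - u) ^ 7 + (0 / 9) * (1 - u) ^ 9)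
    (by fun_prop) (by
      intro u h0 h1
      rw [← int_poly]
      unfold GG
      refine intervalIntegral.integral_mono_on (by linarith)
        ((fa_cont.pow 2).intervalIntegrable _ _) ((by fun_prop : Continuous fun r : ℝ =>
        1 + -0.61685 * r ^ 2 + 0.12685 * r ^ 4 + 0 * r ^ 6 + 0 * r ^ 8).intervalIntegrable _ _)
        fun r hr => ?_
      unfold fa
      rw [Real.cos_sq, show 2 * (Real.pi / 4 * r) = Real.pi / 2 * r by ring]
      have := cos_le_p hr.1
      linarith)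
  rw [wI_odd] at h
  refine h.trans ?_
  norm_num

lemma wb_le : wI (GG fb) ≤ 1.27137 := by
  have h := wI_mono (GG_cont fb_cont) (H := fun u => 2.46741 * ((1 - u) +
      (-1.85055 / 3) * (1 - u) ^ 3 + (1.236684 / 5) * (1 - u) ^ 5 +
      (-0.352113 / 7) * (1 - u) ^ 7 + (0.036205 / 9) * (1 - u) ^ 9))
    (by fun_prop) (by
      intro u h0 h1
      rw [← int_poly, ← intervalIntegral.integral_const_mul]
      unfold GG
      refine intervalIntegral.integral_mono_on (by linarith)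
        ((fb_cont.pow 2).intervalIntegrable _ _) ((by fun_prop : Continuous fun r : ℝ =>
        2.46741 * (1 + -1.85055 * r ^ 2 + 1.236684 * r ^ 4 + -0.352113 * r ^ 6 +
          0.036205 * r ^ 8)).intervalIntegrable _ _)
        fun r hr => ?_
      unfold fb
      have h2 := cos_le_p hr.1
      have hp1 := Real.pi_gt_d6
      have hp2 := Real.pi_lt_d6
      have h3 : 0 ≤ Real.cos (Real.pi / 2 * r) := by
        apply Real.cos_nonneg_of_mem_Icc
        have := hr.1
        have := hr.2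
        constructor <;> nlinarith
      have h4 : (Real.pi / 2) ^ 2 ≤ 2.46741 := by nlinarith
      have h5 : (1 / 4 + 3 / 4 * Real.cos (Real.pi / 2 * r)) ^ 2 ≤
          (1 - 0.925275 * r ^ 2 + 0.190275 * r ^ 4) ^ 2 := by
        exact pow_le_pow_left₀ (by positivity) (by linarith) 2
      have h6 : (1 - 0.925275 * r ^ 2 + 0.190275 * r ^ 4) ^ 2 ≤ 1 + -1.85055 * r ^ 2 +
          1.236684 * r ^ 4 + -0.352113 * r ^ 6 + 0.036205 * r ^ 8 := by
        have a4 : 0 ≤ r ^ 4 := by positivity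
        have a6 : 0 ≤ r ^ 6 := by have := hr.1; positivity
        have a8 : 0 ≤ r ^ 8 := by positivity
        nlinarith
      rw [mul_pow]
      exact mul_le_mul h4 (h5.trans h6) (sq_nonneg _) (by norm_num))
  have e : wI (fun u => 2.46741 * ((1 - u) +
      (-1.85055 / 3) * (1 - u) ^ 3 + (1.236684 / 5) * (1 - u) ^ 5 +
      (-0.352113 / 7) * (1 - u) ^ 7 + (0.036205 / 9) * (1 - u) ^ 9)) = 2.46741 * wI (fun u =>
      ((1 - u) + (-1.85055 / 3) * (1 - u) ^ 3 + (1.236684 / 5) * (1 - u) ^ 5 +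
      (-0.352113 / 7) * (1 - u) ^ 7 + (0.036205 / 9) * (1 - u) ^ 9)) := by
    unfold wI
    rw [← intervalIntegral.integral_const_mul]
    refine intervalIntegral.integral_congr fun u _ => ?_
    ring
  rw [e, wI_odd] at h
  refine h.trans ?_
  norm_num

end

end Pool.Agent.H932Z.FM
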