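import Pool.Agent.H932Z.FM.UpNum
import Pool.Agent.H932Z.FM.Phase

set_option autoImplicit false

/-! The upper bound for the first moment. -/

namespace Pool.Agent.H932Z.FM

open Finset MeasureTheory Filter Topology

noncomputable section

lemma two_pt {a b X Y : ℂ} (ha : (starRingEnd ℂ) a = X * a) (hb : (starRingEnd ℂ) b = Y * b)
    (h : ‖X + Y‖ ≤ 0.0002) : ‖a‖ + ‖b‖ ≤ 1.4143 * ‖a + b‖ := by
  have h1 : ‖a + b‖ ^ 2 = ‖a‖ ^ 2 + ‖b‖ ^ 2 + ((X + Y) * a * b).re := by
    rw [show (X + Y) * a * b = (X * a) * b + a * (Y * b) by ring, ← ha, ← hb,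
      ← Complex.normSq_eq_norm_sq, ← Complex.normSq_eq_norm_sq, ← Complex.normSq_eq_norm_sq]
    simp only [Complex.normSq_apply, Complex.add_re, Complex.add_im, Complex.mul_re,
      Complex.conj_re, Complex.conj_im]
    ring
  have h2 : |((X + Y) * a * b).re| ≤ 0.0002 * (‖a‖ * ‖b‖) := by
    refine (Complex.abs_re_le_norm _).trans ?_
    rw [norm_mul, norm_mul, mul_assoc]
    gcongr
  have h3 := (abs_le.1 h2).1
  rw [← sq_le_sq₀ (by positivity) (by positivity), mul_pow, h1]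
  nlinarith [sq_nonneg (‖a‖ - ‖b‖), norm_nonneg a, norm_nonneg b,
    mul_nonneg (norm_nonneg a) (norm_nonneg b)]

lemma ex_cos (y : ℝ) : ex (-y) + ex y = 2 * (Real.cos y : ℂ) := by
  apply Complex.ext
  · simp only [Complex.add_re, ex_re, Real.cos_neg, Complex.mul_re, Complex.re_ofNat,
      Complex.ofReal_re, Complex.im_ofNat, Complex.ofReal_im]
    ring
  · simp only [Complex.add_im, ex_im, Real.sin_neg, Complex.mul_im, Complex.re_ofNat,
      Complex.ofReal_re, Complex.im_ofNat, Complex.ofReal_im]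
    ring

lemma PP_cos (T t : ℝ) : DD ⌊T⌋₊ (t + Real.pi / 2 / Real.log T) +
    DD ⌊T⌋₊ (t + -(Real.pi / 2 / Real.log T)) =
      2 * PP T (fun u => Real.cos (Real.pi / 2 * u)) t := by
  unfold DD PP
  rw [← sum_add_distrib, mul_sum]
  refine sum_congr rfl fun n _ => ?_
  rw [nz_shift, nz_shift, ← mul_add, neg_mul, neg_neg, ex_cos]
  unfold uu
  rw [show Real.pi / 2 / Real.log T * Real.log n = Real.pi / 2 * (Real.log n / Real.log T) by ring]
  ring

lemma ex_pi : ex Real.pi = -1 := Complex.exp_pi_mul_I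

lemma up_point : ∀ᶠ T : ℝ in atTop, ∀ t : ℝ, T / 2 - 1 ≤ t → t ≤ T + 1 →
    ‖zt (t + Real.pi / 2 / Real.log T)‖ + ‖zt (t + -(Real.pi / 2 / Real.log T))‖ ≤
      1.4143 * (2 * ‖PP T (fun u => Real.cos (Real.pi / 2 * u)) t‖ + 440) := by
  filter_upwards [phase (δ := 0.0001) (by norm_num), eventually_ge_atTop 12,
    Real.tendsto_log_atTop.eventually_ge_atTop 200000] with T h1 h2 h3 t ht1 ht2
  set τ := Real.pi / 2 / Real.log T with hτ
  have hpi := Real.pi_pos
  have hpi2 := Real.pi_lt_d2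
  have hL : 0 < Real.log T := by linarith
  have hτ0 : 0 ≤ τ := by positivity
  have hτ1 : τ ≤ 0.00001 := by
    rw [hτ, div_le_iff₀ hL]
    linarith
  have h4 := h1 (t + -τ) (by linarith) (by linarith) (2 * τ) (by
    rw [abs_of_nonneg (by linarith)]
    linarith)
  rw [show 2 * τ * Real.log T = Real.pi by rw [hτ]; field_simp, ex_pi,
    show t + -τ + 2 * τ = t + τ by ring, abs_of_nonneg (by linarith), mul_neg_one,
    sub_neg_eq_add] at h4
  refine (two_pt (conj_zt _) (conj_zt _) (h4.trans (by linarith))).trans ?_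
  gcongr
  have h5 := approxT (T := T) (by linarith) (t := t + τ) (by linarith) (by linarith)
  have h6 := approxT (T := T) (by linarith) (t := t + -τ) (by linarith) (by linarith)
  have e : zt (t + τ) + zt (t + -τ) = 2 * PP T (fun u => Real.cos (Real.pi / 2 * u)) t +
      ((zt (t + τ) - DD ⌊T⌋₊ (t + τ)) + (zt (t + -τ) - DD ⌊T⌋₊ (t + -τ))) := by
    rw [← PP_cos]
    ring
  rw [e]
  refine (norm_add_le _ _).trans (add_le_add ?_ ((norm_add_le _ _).trans (by linarith)))
  rw [norm_mul]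
  simp

lemma B_le {T : ℝ} (hT : 3 ≤ T) {a b : ℝ} (hab : a ≤ b) :
    ∫ t in a..b, ‖PP T (fun u => Real.cos (Real.pi / 2 * u)) t‖ ≤
      (b - a) * ((1.3674 * dg T (GG fa) + (1.3674)⁻¹ * dg T (GG fb)) / 2) + 30 * T := by
  have hT1 : 1 < T := by linarith
  have h1 : ∫ t in a..b, ‖PP T (fun u => Real.cos (Real.pi / 2 * u)) t‖ ≤
      ∫ t in a..b, (1.3674 * Hf ⌊T⌋₊ (kk T fa) t + (1.3674)⁻¹ * Hf ⌊T⌋₊ (kk T fb) t) / 2 := by
    refine intervalIntegral.integral_mono_on hab ((PP_cont _ _).norm.intervalIntegrable _ _)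
      ((((continuous_const.mul (Hf_cont _ _)).add
        (continuous_const.mul (Hf_cont _ _))).div_const 2).intervalIntegrable _ _) fun t _ => ?_
    rw [← conv_eq hT1 fa_cont fb_cont _ (fun u _ _ => by
      rw [fab_conv, mul_sub, mul_one, Real.sin_pi_div_two_sub]) t, ← sq_eq T fa_cont,
      ← sq_eq T fb_cont]
    exact q_upper (SS_BM T fa_cont t) (SS_BM T fb_cont t) (by norm_num)
  rw [intervalIntegral.integral_div, intervalIntegral.integral_add
    (((Hf_cont _ _).intervalIntegrable _ _).const_mul _)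
    (((Hf_cont _ _).intervalIntegrable _ _).const_mul _),
    intervalIntegral.integral_const_mul, intervalIntegral.integral_const_mul] at h1
  have h2 := (abs_le.1 (mv_kk hT fa_cont fa_le a b)).2
  have h3 := (abs_le.1 (mv_kk hT fb_cont fb_le a b)).2
  change _ - (b - a) * dg T (GG fa) ≤ _ at h2
  change _ - (b - a) * dg T (GG fb) ≤ _ at h3
  norm_num at h1 h2 h3 ⊢
  linarith

lemma shift_le (f : ℝ → ℝ) (hf : Continuous f) (hf0 : ∀ t, 0 ≤ f t) {a b a' b' τ : ℝ}
    (hab : a ≤ b) (h1 : a' + τ ≤ a) (h2 : b ≤ b' + τ) :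
    ∫ t in a..b, f t ≤ ∫ t in a'..b', f (t + τ) := by
  rw [intervalIntegral.integral_comp_add_right]
  exact intervalIntegral.integral_mono_interval h1 hab h2 (Eventually.of_forall hf0)
    (hf.intervalIntegrable _ _)

lemma dg_le (G : ℝ → ℝ) (hG : Continuous G) (hG1 : G 1 = 0) {w : ℝ} (hw : wI G < w) :
    ∀ᶠ T : ℝ in atTop, dg T G ≤ w * (cA * Real.log T ^ (1 / 4 : ℝ)) := by
  filter_upwards [(dg_tendsto G hG hG1).eventually_le_const
    (mul_lt_mul_of_pos_left hw cA_pos), lq_tendsto.eventually_gt_atTop 0] with T h1 h2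
  rw [div_le_iff₀ h2] at h1
  linarith

lemma dg_ge (G : ℝ → ℝ) (hG : Continuous G) (hG1 : G 1 = 0) {w : ℝ} (hw : w < wI G) :
    ∀ᶠ T : ℝ in atTop, w * (cA * Real.log T ^ (1 / 4 : ℝ)) ≤ dg T G := by
  filter_upwards [(dg_tendsto G hG hG1).eventually_const_le
    (mul_lt_mul_of_pos_left hw cA_pos), lq_tendsto.eventually_gt_atTop 0] with T h1 h2
  rw [le_div_iff₀ h2] at h1
  linarith

lemma cq_tendsto : Tendsto (fun T : ℝ => cA * Real.log T ^ (1 / 4 : ℝ)) atTop atTop :=
  lq_tendsto.const_mul_atTop cA_pos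

theorem upper_dy : ∀ᶠ T : ℝ in atTop, ∫ t in (T / 2)..T, ‖zt t‖ ≤
    1.3155 * cA * (T / 2 * Real.log T ^ (1 / 4 : ℝ)) := by
  filter_upwards [up_point, eventually_ge_atTop 100000,
    Real.tendsto_log_atTop.eventually_ge_atTop 2,
    dg_le (GG fa) (GG_cont fa_cont) (GG_one _) (w := 0.68) (wa_le.trans_lt (by norm_num)),
    dg_le (GG fb) (GG_cont fb_cont) (GG_one _) (w := 1.2714) (wb_le.trans_lt (by norm_num)),
    cq_tendsto.eventually_ge_atTop 10000000] with T h1 h2 h3 h4 h5 h6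
  set τ := Real.pi / 2 / Real.log T with hτ
  set Q := cA * Real.log T ^ (1 / 4 : ℝ) with hQ
  have hpi := Real.pi_pos
  have hpi2 := Real.pi_lt_d2
  have hL : 0 < Real.log T := by linarith
  have hτ0 : 0 ≤ τ := by positivity
  have hτ1 : τ ≤ 1 := by
    rw [hτ, div_le_iff₀ hL]
    linarith
  have hz : Continuous fun t => ‖zt t‖ := zt_cont.norm
  have a1 := shift_le _ hz (fun _ => norm_nonneg _) (a := T / 2) (b := T) (a' := T / 2 - 1)
    (b' := T + 1) (τ := τ) (by linarith) (by linarith) (by linarith)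
  have a2 := shift_le _ hz (fun _ => norm_nonneg _) (a := T / 2) (b := T) (a' := T / 2 - 1)
    (b' := T + 1) (τ := -τ) (by linarith) (by linarith) (by linarith)
  have c1 : Continuous fun t => ‖zt (t + τ)‖ := hz.comp (by fun_prop)
  have c2 : Continuous fun t => ‖zt (t + -τ)‖ := hz.comp (by fun_prop)
  have c3 := (PP_cont T (fun u => Real.cos (Real.pi / 2 * u))).norm
  have a3 := intervalIntegral.integral_mono_on (μ := volume) (by linarith : T / 2 - 1 ≤ T + 1)
    ((c1.add c2).intervalIntegrable _ _)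
    ((continuous_const.mul ((continuous_const.mul c3).add continuous_const)).intervalIntegrable _ _)
    fun t ht => h1 t ht.1 ht.2
  simp only [Pi.add_apply, Pi.mul_apply] at a3
  rw [intervalIntegral.integral_add (c1.intervalIntegrable _ _) (c2.intervalIntegrable _ _),
    intervalIntegral.integral_const_mul, intervalIntegral.integral_add
      ((c3.intervalIntegrable _ _).const_mul _) (by simp),
    intervalIntegral.integral_const_mul, intervalIntegral.integral_const, smul_eq_mul] at a3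
  have a4 := B_le (T := T) (by linarith) (by linarith : T / 2 - 1 ≤ T + 1)
  have a5 : (1.3674 * dg T (GG fa) + (1.3674)⁻¹ * dg T (GG fb)) / 2 ≤ 0.92982 * Q := by
    norm_num at h4 h5 ⊢
    linarith
  have a6 : (T + 1 - (T / 2 - 1)) * ((1.3674 * dg T (GG fa) + (1.3674)⁻¹ * dg T (GG fb)) / 2) ≤
      (T + 1 - (T / 2 - 1)) * (0.92982 * Q) := by
    gcongr
    linarith
  have e : 1.3155 * cA * (T / 2 * Real.log T ^ (1 / 4 : ℝ)) = 1.3155 / 2 * (T * Q) := by
    rw [hQ]
    ring
  rw [e]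
  have a7 : 100000 * Q ≤ T * Q := by gcongr
  have a8 : T * 10000000 ≤ T * Q := by gcongr
  linarith

theorem upper : ∀ᶠ T : ℝ in atTop, ∫ t in (0 : ℝ)..T, ‖zt t‖ ≤
    1.316 * cA * (T * Real.log T ^ (1 / 4 : ℝ)) :=
  dy_upper _ zt_cont.norm (fun _ => norm_nonneg _) (by have := cA_pos; positivity)
    (by have := cA_pos; linarith) upper_dy

end

end Pool.Agent.H932Z.FM
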